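import Pool.Agent.H362Z.PRT.G

/-!
Invariants given by monotone goals on total enumerable relations, and their preservation by
members of closed classes.
-/

set_option autoImplicit false

open Encodable

namespace Pool.Agent.H362Z.EM

open Pool.Agent.H362Z.PRT

variable {M : SA} {α β γ : Type} [Primcodable α] [Primcodable β] [Primcodable γ]

/-- the class obtained by adjoining a function -/
def ad (M : SA) {β : Type} [Primcodable β] (G : ℕ → β) : SA where
  S := {s | ∃ O : ℕ → (ℕ → β) → Prop, Sig M O ∧ ∀ n, n ∈ s ↔ O n G}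
  base p hp := ⟨fun n _ => p n, Sig.of_ce (CE.of_prim hp), fun _ => Iff.rfl⟩
  subst := by
    rintro s ⟨O, h1, h2⟩ f hf
    exact ⟨fun n h => O (f n) h, h1.comp (InM.of_prim hf), fun n => h2 _⟩
  inter := by
    rintro s ⟨O, h1, h2⟩ t ⟨O', h1', h2'⟩
    exact ⟨_, h1.and h1', fun n => and_congr (h2 n) (h2' n)⟩
  union := by
    rintro s ⟨O, h1, h2⟩ t ⟨O', h1', h2'⟩
    exact ⟨_, h1.or h1', fun n => or_congr (h2 n) (h2' n)⟩
  proj := by
    rintro s ⟨O, h1, h2⟩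
    exact ⟨_, Sig.ex (O := fun n k h => O (Nat.pair n k) h)
      (h1.comp (k := fun x : ℕ × ℕ => Nat.pair x.1 x.2) (by fun_prop)),
      fun n => exists_congr fun k => h2 _⟩
  ball := by
    rintro s ⟨O, h1, h2⟩
    exact ⟨_, Sig.ball (O := fun (n : ℕ) i h => O (Nat.pair n.unpair.1 i) h)
      (t := fun n : ℕ => n.unpair.2)
      (by fun_prop)
      (h1.comp (k := fun x : ℕ × ℕ => Nat.pair x.1.unpair.1 x.2) (by fun_prop)),
      fun n => forall₂_congr fun i _ => h2 _⟩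

lemma le_ad (M : SA) (G : ℕ → β) : Le M (ad M G) :=
  fun s hs => ⟨fun n _ => n ∈ s, Sig.of_ce (ce_of_mem hs), fun _ => Iff.rfl⟩

lemma inM_ad (M : SA) (G : ℕ → β) : InM (ad M G) G := by
  refine ⟨{n | encode (G n.unpair.1) = n.unpair.2}, ⟨fun n h => encode (h n.unpair.1) = n.unpair.2,
    Sig.eval (p := fun (n : ℕ) (b : β) => encode b = n.unpair.2)
      (CE.eq (by fun_prop) (by fun_prop)) (by fun_prop), fun _ => Iff.rfl⟩, fun x => ?_⟩
  obtain ⟨n, b⟩ := x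
  simp [encode_injective.eq_iff]

lemma sig_of_ce_ad {G : ℕ → β} {p : α → Prop} (hp : CE (ad M G) p) :
    ∃ O : α → (ℕ → β) → Prop, Sig M O ∧ ∀ a, p a ↔ O a G := by
  obtain ⟨s, ⟨O, h1, h2⟩, e⟩ := hp
  exact ⟨fun a h => O (encode a) h, h1.comp (by fun_prop), fun a => (e a).trans (h2 _)⟩

lemma countable_ad (hM : M.S.Countable) (G : ℕ → β) : (ad M G).S.Countable := by
  refine ((countable_ce (α := ℕ × List β) hM).image
    fun S => {n | ∃ u, S (n, pre G u)}).mono ?_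
  rintro s ⟨O, ⟨S, h1, -, h3⟩, h2⟩
  exact ⟨_, h1, Set.ext fun n => ((h2 n).trans (h3 n G)).symm⟩

lemma compact_open {δ : Type} (L : List δ) (O : ℕ → (ℕ → δ) → Prop)
    (hmono : ∀ u v h, u ≤ v → O u h → O v h)
    (hloc : ∀ u h, O u h → ∃ v, ∀ h', (∀ x < v, h x = h' x) → O u h')
    (H : ∀ h, (∀ x, h x ∈ L) → ∃ u, O u h) : ∃ u, ∀ h, (∀ x, h x ∈ L) → O u h := by
  obtain ⟨u, hu⟩ := compact_bound L (fun u h => ∀ h' : ℕ → δ, (∀ x < u, h x = h' x) → O u h')
    (fun u v h huv H g e => hmono u v _ huv (H g fun x hx => e x (hx.trans_le huv)))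
    (fun u h g e H g' e' => H g' fun x hx => (e x hx).trans (e' x hx))
    (fun h hh => by
      obtain ⟨u, hu⟩ := H h hh
      obtain ⟨v, hv⟩ := hloc u h hu
      exact ⟨max u v, fun h' e => hmono _ _ _ (le_max_left _ _)
        (hv h' fun x hx => e x (hx.trans_le (le_max_right _ _)))⟩)
  exact ⟨u, fun h hh => hu h hh h fun _ _ => rfl⟩

variable {ι : Type} {Γ : ι → (ℕ → ℕ → Prop) → Prop}

/-- monotone goals -/
def Mono (Γ : ι → (ℕ → ℕ → Prop) → Prop) : Prop :=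
  ∀ k B B', (∀ m b, B' m b → ∃ b' ≤ b, B m b') → Γ k B' → Γ k B

/-- the invariant -/
structure Inv (Γ : ι → (ℕ → ℕ → Prop) → Prop) (M : SA) : Prop where
  count : M.S.Countable
  good : ∀ k B, CE M (fun x : ℕ × ℕ => B x.1 x.2) → (∀ m, ∃ b, B m b) → Γ k B

lemma inv_sup {N : ℕ → SA} (hN : ∀ t, Le (N t) (N (t + 1))) (h : ∀ t, Inv Γ (N t)) :
    Inv Γ (sup N hN) := by
  refine ⟨?_, fun k R hR => ?_⟩
  · have : (sup N hN).S = ⋃ t, (N t).S := by ext s; simp [PRT.sup]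
    rw [this]
    exact Set.countable_iUnion fun t => (h t).count
  · obtain ⟨t, ht⟩ := ce_sup hR
    exact (h t).good k R ht

/-- monotone enumerable relations -/
def Req (M : SA) {β : Type} [Primcodable β] (S : ℕ → ℕ → List β → Prop) : Prop :=
  CE M (fun x : ℕ × ℕ × List β => S x.1 x.2.1 x.2.2) ∧
    ∀ m b l l', l <+: l' → S m b l → S m b l'

lemma inv_ad (hM : M.S.Countable) {G : ℕ → β} (h : ∀ k S, Req M S →
    (∀ m, ∃ b u, S m b (pre G u)) → Γ k fun m b => ∃ u, S m b (pre G u)) : Inv Γ (ad M G) := by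
  refine ⟨countable_ad hM G, fun k R hR htot => ?_⟩
  obtain ⟨O, ⟨S, h1, h2, h3⟩, e⟩ := sig_of_ce_ad hR
  have e' : R = fun m b => ∃ u, S (m, b) (pre G u) :=
    funext fun m => funext fun b => propext ((e (m, b)).trans (h3 _ _))
  subst e'
  exact h k (fun m b l => S (m, b) l) ⟨h1.comp
      (f := fun x : ℕ × ℕ × List β => ((x.1, x.2.1), x.2.2)) (by fun_prop),
      fun m b => h2 _⟩ htot

lemma exists_enum [Countable ι] [Nonempty ι] (hM : M.S.Countable) :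
    ∃ (k : ℕ → ι) (e : ℕ → ℕ → ℕ → List β → Prop),
      (∀ t, Req M (e t)) ∧ ∀ i S, Req M S → ∃ t, k t = i ∧ e t = S := by
  have h1 : {S : ℕ → ℕ → List β → Prop | Req M S}.Countable := by
    refine ((countable_ce (α := ℕ × ℕ × List β) hM).image
      fun S => fun l n b => S (l, n, b)).mono ?_
    rintro R ⟨h, -⟩
    exact ⟨_, h, rfl⟩
  have := h1.to_subtype
  have : Nonempty {S : ℕ → ℕ → List β → Prop | Req M S} :=
    ⟨⟨fun _ _ _ => True, CE.const True, fun _ _ _ _ _ h => h⟩⟩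
  obtain ⟨g, hg⟩ := exists_surjective_nat (ι × {S : ℕ → ℕ → List β → Prop | Req M S})
  refine ⟨fun t => (g t).1, fun t => (g t).2.1, fun t => (g t).2.2, fun i S hS => ?_⟩
  obtain ⟨t, ht⟩ := hg (i, ⟨S, hS⟩)
  exact ⟨t, by simp only [ht], by simp only [ht]⟩

lemma Req.sig {S : ℕ → ℕ → List β → Prop} (hS : Req M S) :
    Sig M fun (x : ℕ × ℕ) (h : ℕ → β) => ∃ u, S x.1 x.2 (pre h u) :=
  ⟨fun x l => S x.1 x.2 l, hS.1.comp
    (f := fun x : (ℕ × ℕ) × List β => (x.1.1, x.1.2, x.2)) (by fun_prop),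
    fun _ => hS.2 _ _, fun _ _ => Iff.rfl⟩

theorem wkl [Countable ι] [Nonempty ι] (hΓ : Mono Γ) (hM : Inv Γ M) (L : List β)
    {O : Unit → (ℕ → β) → Prop} (hO : Sig M O) (hne : ∃ c, (∀ x, c x ∈ L) ∧ ¬ O () c) :
    ∃ c, (∀ x, c x ∈ L) ∧ ¬ O () c ∧ Inv Γ (ad M c) := by
  obtain ⟨k, e, he, he'⟩ := exists_enum (ι := ι) (β := β) hM.count
  let C := {U : Unit → (ℕ → β) → Prop // Sig M U ∧ ∃ c, (∀ x, c x ∈ L) ∧ ¬ U () c}
  let step : ℕ → C → C → Prop := fun t U U' => (∀ c, U.1 () c → U'.1 () c) ∧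
    ∀ c, (∀ x, c x ∈ L) → ¬ U'.1 () c → (∀ m, ∃ b u, e t m b (pre c u)) →
      Γ (k t) fun m b => ∃ u, e t m b (pre c u)
  have hstep : ∀ t c, ∃ c', step t c c' := by
    rintro t ⟨U, hU, hne⟩
    have h1 : Sig M fun (x : ℕ × ℕ) (c : ℕ → β) =>
        U () c ∨ ∃ b', b' ≤ x.2 ∧ ∃ u, e t x.1 b' (pre c u) :=
      (hU.comp (k := fun _ => ()) (by fun_prop)).or
        (Sig.ex (O := fun (x : ℕ × ℕ) b' c => b' ≤ x.2 ∧ ∃ u, e t x.1 b' (pre c u))
          ((Sig.of_ce (CE.le (by fun_prop) (by fun_prop))).and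
            ((he t).sig.comp (k := fun x : (ℕ × ℕ) × ℕ => (x.1.1, x.2)) (by fun_prop))))
    by_cases hq : ∀ m, ∃ b, ∀ c : ℕ → β, (∀ x, c x ∈ L) →
        U () c ∨ ∃ b', b' ≤ b ∧ ∃ u, e t m b' (pre c u)
    · have h2 := hM.good (k t) _ (h1.ce_forall (L := fun _ => L) (by fun_prop)) hq
      exact ⟨⟨U, hU, hne⟩, fun _ h => h, fun c hc hc' _ =>
        hΓ _ _ _ (fun m b h => (h c hc).resolve_left hc') h2⟩
    · simp only [not_forall, not_exists] at hq
      obtain ⟨m, hm⟩ := hq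
      have h2 : Sig M fun (_ : Unit) (c : ℕ → β) => U () c ∨ ∃ b u, e t m b (pre c u) :=
        (hU.comp (k := fun _ => ()) (by fun_prop)).or
          (Sig.ex (O := fun (_ : Unit) b c => ∃ u, e t m b (pre c u))
            ((he t).sig.comp (k := fun x : Unit × ℕ => (m, x.2)) (by fun_prop)))
      refine ⟨⟨_, h2, ?_⟩, fun _ h => Or.inl h, fun c _ hc' ht => (hc' (Or.inr (ht m))).elim⟩
      by_contra hc
      simp only [not_exists, not_and, not_not] at hc
      obtain ⟨b, hb⟩ := compact_open L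
        (fun b c => U () c ∨ ∃ b', b' ≤ b ∧ ∃ u, e t m b' (pre c u))
        (fun u v h huv H => H.imp_right fun ⟨b', h1, h2⟩ => ⟨b', h1.trans huv, h2⟩)
        (fun u h H => h1.loc (a := (m, u)) H)
        (fun c hc' => by
          rcases hc c hc' with h | ⟨b, h⟩
          · exact ⟨0, Or.inl h⟩
          · exact ⟨b, Or.inr ⟨b, le_rfl, h⟩⟩)
      obtain ⟨c, h3, h4⟩ := hm b
      exact h4 (hb c h3)
  obtain ⟨s, hs0, hs⟩ := exists_chain step hstep ⟨O, hO, hne⟩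
  have hm : ∀ t t', t ≤ t' → ∀ c, (s t).1 () c → (s t').1 () c := by
    intro t t' h c hc
    induction h with
    | refl => exact hc
    | step _ ih => exact (hs _).1 c ih
  have : ∃ c, (∀ x, c x ∈ L) ∧ ∀ t, ¬ (s t).1 () c := by
    by_contra hc
    simp only [not_exists, not_and, not_forall, not_not] at hc
    obtain ⟨t, ht⟩ := compact_open L (fun t c => (s t).1 () c) (fun u v h huv => hm u v huv h)
      (fun u h H => (s u).2.1.loc H) hc
    obtain ⟨c, h1, h2⟩ := (s t).2.2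
    exact h2 (ht c h1)
  obtain ⟨c, h1, h2⟩ := this
  refine ⟨c, h1, by simpa only [hs0] using h2 0, inv_ad hM.count fun i S hS => ?_⟩
  obtain ⟨t, rfl, rfl⟩ := he' i S hS
  exact (hs t).2 c h1 (h2 _)

/-- infinite sets -/
def Inf (X : ℕ → Bool) : Prop := ∀ n, ∃ y, n ≤ y ∧ X y = true

lemma pigeon {δ : Type} (L : List δ) {X : ℕ → Bool} (hX : Inf X) (c : ℕ → δ) (hc : ∀ x, c x ∈ L) :
    ∃ w, ∀ n, ∃ y, n ≤ y ∧ X y = true ∧ c y = w := by
  classical
  by_contra h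
  simp only [not_exists, not_forall, not_and] at h
  choose n hn using h
  obtain ⟨y, h1, h2⟩ := hX (L.toFinset.sup n)
  exact hn (c y) y ((Finset.le_sup (f := n) (List.mem_toFinset.2 (hc y))).trans h1) h2 rfl

lemma exists_part (L : List β) {X : ℕ → Bool} (hX : Inf X) (hXM : InM M X) {c : ℕ → β}
    (hcM : InM M c) (hc : ∀ x, c x ∈ L) :
    ∃ (w : β) (Y : ℕ → Bool), InM M Y ∧ Inf Y ∧ ∀ y, Y y = true → X y = true ∧ c y = w := by
  classical
  obtain ⟨w, hw⟩ := pigeon L hX c hc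
  refine ⟨w, fun y => X y && decide (c y = w), hXM.band (Dec.eq hcM (InM.const _)).inM,
    fun n => ?_, fun y hy => by simpa using hy⟩
  obtain ⟨y, h1, h2⟩ := hw n
  exact ⟨y, h1, by simpa using h2⟩

lemma mem_allB (u : ℕ) (l : List Bool) : l ∈ allL [false, true] u ↔ l.length = u := by
  rw [mem_allL]
  exact ⟨fun h => h.1, fun h => ⟨h, fun b _ => by cases b <;> simp⟩⟩

lemma exists_type {T : ℕ → ℕ → Bool} (hT : InM M fun x : ℕ × ℕ => T x.1 x.2) {X : ℕ → Bool}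
    (hX : Inf X) (hXM : InM M X) (k : ℕ) :
    ∃ (ty : ℕ → Bool) (Y : ℕ → Bool), InM M Y ∧ Inf Y ∧
      ∀ y, Y y = true → X y = true ∧ ∀ x < k, T x y = ty x := by
  obtain ⟨w, Y, h1, h2, h3⟩ := exists_part (allL [false, true] k) hX hXM
    (c := fun y => pre (fun x => T x y) k)
    (InM.mapRange (g := fun y x => T x y) (t := fun _ => k) (by fun_prop)
      (hT.comp (g := fun x : ℕ × ℕ => (x.2, x.1)) (by fun_prop)))
    fun y => (mem_allB _ _).2 (length_pre _ _)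
  refine ⟨fun x => w.getD x false, Y, h1, h2, fun y hy => ⟨(h3 y hy).1, fun x hx => ?_⟩⟩
  rw [← (h3 y hy).2]
  exact (pre_getD (fun x => T x y) hx false).symm

/-- closing a class under the solutions of a problem -/
theorem exists_closure {P : (ℕ × ℕ → Bool) → SA → Prop}
    (hP : ∀ T N N', Le N N' → P T N → P T N')
    (hstep : ∀ T N, Inv Γ N → InM N T → ∃ N', Le N N' ∧ Inv Γ N' ∧ P T N') (hM : Inv Γ M) :
    ∃ N, Le M N ∧ Inv Γ N ∧ ∀ T, InM N T → P T N := by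
  have ext : ∀ M : SA, Inv Γ M → ∃ N, Le M N ∧ Inv Γ N ∧ ∀ T, InM M T → P T N := by
    intro M hM
    obtain ⟨r, hr, hr'⟩ := exists_enum_inM (α := ℕ × ℕ) (β := Bool) hM.count
    let C := {N : SA // Le M N ∧ Inv Γ N}
    let step : ℕ → C → C → Prop := fun t N N' => Le N.1 N'.1 ∧ P (r t) N'.1
    have hs : ∀ t c, ∃ c', step t c c' := by
      rintro t ⟨N, h1, h2⟩
      obtain ⟨N', h3, h4, h5⟩ := hstep (r t) N h2 ((hr t).mono h1)
      exact ⟨⟨N', h1.trans h3, h4⟩, h3, h5⟩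
    obtain ⟨s, -, hs⟩ := exists_chain step hs ⟨M, Le.refl M, hM⟩
    refine ⟨sup (fun t => (s t).1) fun t => (hs t).1,
      (s 0).2.1.trans (le_sup (fun t => (s t).1) _ 0), inv_sup _ fun t => (s t).2.2,
      fun T hT => ?_⟩
    obtain ⟨t, rfl⟩ := hr' T hT
    exact hP _ _ _ (le_sup (fun t => (s t).1) _ (t + 1)) (hs t).2
  let C := {N : SA // Inv Γ N}
  let step : ℕ → C → C → Prop := fun _ N N' => Le N.1 N'.1 ∧ ∀ T, InM N.1 T → P T N'.1
  have hs : ∀ t c, ∃ c', step t c c' := by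
    rintro t ⟨N, h⟩
    obtain ⟨N', h1, h2, h3⟩ := ext N h
    exact ⟨⟨N', h2⟩, h1, h3⟩
  obtain ⟨s, hs0, hs⟩ := exists_chain step hs ⟨M, hM⟩
  refine ⟨sup (fun t => (s t).1) fun t => (hs t).1, ?_, inv_sup _ fun t => (s t).2, fun T hT => ?_⟩
  · have := le_sup (fun t => (s t).1) (fun t => (hs t).1) 0
    simpa only [hs0] using this
  · obtain ⟨t, ht⟩ := ce_sup hT
    exact hP _ _ _ (le_sup (fun t => (s t).1) _ (t + 1)) ((hs t).2 T ht)

lemma countable_base : base.S.Countable := nice_base.count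

end Pool.Agent.H362Z.EM
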