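import Pool.Agent.H362Z.EM.A
import Pool.Agent.H112Z.Ramsey

/-!
The invariant given by permutations: the product Ramsey lemma and the generic colouring.
-/

set_option autoImplicit false

namespace Pool.Agent.H362Z.EM

open Pool.Agent.H362Z.PRT

/-- the colour of the pair `i < j` in the permutation pattern `v` -/
def pat (v : List ℕ) (i j : ℕ) : Bool := decide (v.getD j 0 < v.getD i 0)

/-- the goal: intervals on which `B` holds and between which `f` follows the pattern -/
def Goal (f : ℕ → ℕ → Bool) (k : List ℕ × ℕ) (B : ℕ → ℕ → Prop) : Prop :=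
  k.1.Nodup → ∃ m b : ℕ → ℕ, (∀ a < k.1.length, k.2 ≤ m a ∧ B (m a) (b a)) ∧
    ∀ a a', a < a' → a' < k.1.length → b a ≤ m a' ∧
      ∀ x y, m a ≤ x → x < b a → m a' ≤ y → y < b a' → f x y = pat k.1 a a'

lemma mono_goal (f : ℕ → ℕ → Bool) : Mono (Goal f) := by
  intro k B B' h H hk
  obtain ⟨m, b, h1, h2⟩ := H hk
  have : ∀ a, ∃ b' ≤ b a, a < k.1.length → B (m a) b' := by
    intro a
    by_cases ha : a < k.1.length
    · obtain ⟨b', h3, h4⟩ := h _ _ (h1 a ha).2
      exact ⟨b', h3, fun _ => h4⟩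
    · exact ⟨b a, le_rfl, fun h => absurd h ha⟩
  choose b' h3 h4 using this
  refine ⟨m, b', fun a ha => ⟨(h1 a ha).1, h4 a ha⟩, fun a a' h5 h6 =>
    ⟨(h3 a).trans (h2 a a' h5 h6).1, fun x y h7 h8 h9 h10 =>
      (h2 a a' h5 h6).2 x y h7 (h8.trans_le (h3 a)) h9 (h10.trans_le (h3 a'))⟩⟩

lemma getD_ne {v : List ℕ} (hv : v.Nodup) {i j : ℕ} (hij : i < j) (hj : j < v.length) :
    v.getD i 0 ≠ v.getD j 0 := by
  rw [List.getD_eq_getElem _ _ hj, List.getD_eq_getElem _ _ (hij.trans hj)]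
  intro h
  have := (List.Nodup.getElem_inj_iff hv).1 h
  omega

lemma grid (v : List ℕ) (hv : v.Nodup) : ∃ w : List ℕ, w.Nodup ∧
    ∀ (τ : ℕ → ℕ → Bool) (χ : ℕ → Bool), ∃ (e : ℕ → ℕ) (t : Bool → Bool) (c : Bool),
      (∀ i < v.length, e i < w.length ∧ χ (e i) = c) ∧ ∀ i j, i < j → j < v.length →
        e i < e j ∧ pat w (e i) (e j) = pat v i j ∧ τ (e i) (e j) = t (pat v i j) := by
  obtain ⟨K, hK⟩ := Pool.Agent.H112Z.Ramsey.ramsey (Bool × Bool × Bool) (v.length + 1)
  obtain ⟨L, hL⟩ := Pool.Agent.H112Z.Ramsey.ramsey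
    (Fin (K + 1) → Fin (K + 1) → Bool × Bool × Bool) (v.sum + 2)
  have hb : ∀ i, v.getD i 0 ≤ v.sum := by
    intro i
    by_cases hi : i < v.length
    · rw [List.getD_eq_getElem _ _ hi]
      exact List.single_le_sum (fun _ _ => Nat.zero_le _) _ (List.getElem_mem hi)
    · rw [List.getD_eq_default _ _ (by omega)]
      exact Nat.zero_le _
  let val : ℕ → ℕ := fun p => (p % (L + 1)) * (K + 1) + p / (L + 1)
  let pos : Fin (K + 1) → Fin (L + 1) → ℕ := fun a b => b + (L + 1) * a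
  have hpos : ∀ a b, pos a b < (L + 1) * (K + 1) := by
    intro a b
    have h1 := a.2
    have h2 := b.2
    have h3 : (L + 1) * (a + 1) ≤ (L + 1) * (K + 1) := Nat.mul_le_mul_left _ h1
    simp only [pos]
    rw [Nat.mul_add] at h3
    omega
  have hval : ∀ a b, (pre val ((L + 1) * (K + 1))).getD (pos a b) 0 = b * (K + 1) + a := by
    intro a b
    rw [pre_getD _ (hpos a b)]
    simp only [val, pos]
    rw [Nat.add_mul_mod_self_left, Nat.add_mul_div_left _ _ (Nat.succ_pos L),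
      Nat.mod_eq_of_lt b.2, Nat.div_eq_of_lt b.2, Nat.zero_add]
  have hlex : ∀ (n a a' b b' : ℕ), a < n → b < b' → b * n + a < b' * n + a' := by
    intro n a a' b b' h1 h2
    have h3 : (b + 1) * n ≤ b' * n := Nat.mul_le_mul_right _ h2
    rw [Nat.add_mul] at h3
    omega
  refine ⟨pre val ((L + 1) * (K + 1)), ?_, fun τ χ => ?_⟩
  · refine List.Nodup.map_on (fun p hp q hq e => ?_) List.nodup_range
    rw [List.mem_range] at hp hq
    have h1 : p / (L + 1) < K + 1 := Nat.div_lt_of_lt_mul hp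
    have h2 : q / (L + 1) < K + 1 := Nat.div_lt_of_lt_mul hq
    simp only [val] at e
    have h3 : p % (L + 1) = q % (L + 1) := by
      rcases lt_trichotomy (p % (L + 1)) (q % (L + 1)) with h | h | h
      · exact absurd e (hlex _ _ _ _ _ h1 h).ne
      · exact h
      · exact absurd e (hlex _ _ _ _ _ h2 h).ne'
    rw [h3] at e
    rw [← Nat.mod_add_div p (L + 1), ← Nat.mod_add_div q (L + 1), h3, Nat.add_left_cancel e]
  · obtain ⟨s, k, hs⟩ := hL fun b b' a a' =>
      (τ (pos a b) (pos a' b'), τ (pos a b') (pos a' b), χ (pos a b))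
    obtain ⟨r, k0, hr⟩ := hK k
    refine ⟨fun i => pos (r i) (s (v.getD i 0)), fun x => cond x k0.2.1 k0.1,
      k0.2.2, fun i hi => ⟨by rw [length_pre]; exact hpos _ _, ?_⟩, fun i j hij hj => ?_⟩
    · have h1 := (hs (v.getD i 0) (v.sum + 1) (by have := hb i; omega) (by omega)).2
      have h2 := (hr i v.length hi (by omega)).2
      rw [← h2, ← h1]
    · obtain ⟨h1, h2⟩ := hr i j hij (by omega)
      have h3 := hb i
      have h4 := hb j
      refine ⟨?_, ?_⟩
      · have := hlex (L + 1) (s (v.getD i 0)) (s (v.getD j 0)) (r i) (r j) (s _).2 h1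
        simp only [pos]
        rw [Nat.mul_comm (L + 1), Nat.mul_comm (L + 1)]
        omega
      · simp only [pat, hval]
        rcases lt_or_gt_of_ne (getD_ne hv hij hj) with h | h
        · obtain ⟨h5, h6⟩ := hs _ _ h (by omega)
          have h7 := hlex (K + 1) (r i) (r j) _ _ (r i).2 h5
          rw [decide_eq_false (not_lt.2 h.le), decide_eq_false (not_lt.2 h7.le), ← h2, ← h6]
          exact ⟨rfl, rfl⟩
        · obtain ⟨h5, h6⟩ := hs _ _ h (by omega)
          have h7 := hlex (K + 1) (r j) (r i) _ _ (r j).2 h5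
          rw [decide_eq_true h, decide_eq_true h7, ← h2, ← h6]
          exact ⟨rfl, rfl⟩

section
variable {δ : Type}

lemma getD_prefix {σ τ : List δ} (h : σ <+: τ) {x : ℕ} (hx : x < σ.length) (d : δ) :
    τ.getD x d = σ.getD x d := by
  obtain ⟨t, rfl⟩ := h
  rw [List.getD_append _ _ _ _ hx]

lemma prefix_chain (σ : ℕ → List δ) (h1 : ∀ t, σ t <+: σ (t + 1)) {t t' : ℕ} (h : t ≤ t') :
    σ t <+: σ t' := by
  induction h with
  | refl => exact List.prefix_refl _
  | step _ ih => exact ih.trans (h1 _)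

lemma exists_lim (d : δ) (σ : ℕ → List δ) (h1 : ∀ t, σ t <+: σ (t + 1))
    (h2 : ∀ t, t ≤ (σ (t + 1)).length) : ∃ G : ℕ → δ,
      (∀ t x, x < (σ t).length → G x = (σ t).getD x d) ∧
      (∀ t, pre G (σ t).length = σ t) ∧ ∀ u t, u < t → pre G u <+: σ t := by
  have ha : ∀ t x, x < (σ t).length → (σ (x + 2)).getD x d = (σ t).getD x d := by
    intro t x hx
    rcases le_total t (x + 2) with h | h
    · exact getD_prefix (prefix_chain σ h1 h) hx d
    · exact (getD_prefix (prefix_chain σ h1 h) (h2 (x + 1)) d).symm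
  have hb : ∀ t, pre (fun x => (σ (x + 2)).getD x d) (σ t).length = σ t := by
    intro t
    conv_rhs => rw [← pre_getD_self (σ t) d]
    exact pre_congr (ha t)
  refine ⟨fun x => (σ (x + 2)).getD x d, ha, hb, fun u t hu => ?_⟩
  refine List.IsPrefix.trans ?_ (prefix_chain σ h1 (show u + 1 ≤ t from hu))
  conv_rhs => rw [← hb (u + 1)]
  exact pre_prefix _ (h2 u)

lemma prefix_pre (σ : List δ) (d : δ) (g : ℕ → δ) {u : ℕ} (hu : σ.length ≤ u) :
    σ <+: pre (fun x => if x < σ.length then σ.getD x d else g x) u := by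
  have : pre (fun x => if x < σ.length then σ.getD x d else g x) σ.length = σ := by
    conv_rhs => rw [← pre_getD_self σ d]
    exact pre_congr fun x hx => if_pos hx
  conv_lhs => rw [← this]
  exact pre_prefix _ hu

end

/-- `τ` extends the finite colouring `σ` and keeps the promises `g` -/
def Ext (σ : List (List Bool)) (g : List Bool) (τ : List (List Bool)) : Prop :=
  σ <+: τ ∧ ∀ y, σ.length ≤ y → y < τ.length → g <+: τ.getD y []

lemma Ext.refl (σ : List (List Bool)) (g : List Bool) : Ext σ g σ :=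
  ⟨List.prefix_refl _, fun _ h1 h2 => absurd h2 (not_lt.2 h1)⟩

lemma Ext.trans {σ σ' τ : List (List Bool)} {g g' : List Bool} (h : Ext σ g σ')
    (h' : Ext σ' g' τ) (e : g <+: g') : Ext σ g τ := by
  refine ⟨h.1.trans h'.1, fun y h1 h2 => ?_⟩
  by_cases hy : y < σ'.length
  · rw [getD_prefix h'.1 hy]
    exact h.2 y h1 hy
  · exact e.trans (h'.2 y (not_lt.1 hy) h2)

lemma exists_ext (σ : List (List Bool)) (g : List Bool) (n : ℕ) :
    ∃ τ, Ext σ g τ ∧ n ≤ τ.length := by
  refine ⟨pre (fun x => if x < σ.length then σ.getD x [] else g) (max n σ.length),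
    ⟨prefix_pre σ [] _ (le_max_right _ _), fun y h1 h2 => ?_⟩, by simp⟩
  rw [length_pre] at h2
  rw [pre_getD _ h2, if_neg (not_lt.2 h1)]

lemma rounds (σ : List (List Bool)) (g : List Bool) (p : ℕ → ℕ → Bool) (n : ℕ)
    {S : ℕ → ℕ → List (List Bool) → Prop} (hS : ∀ m b l l', l <+: l' → S m b l → S m b l')
    (H : ∀ σ' g', Ext σ g σ' → g <+: g' → ∀ m, ∃ τ b, Ext σ' g' τ ∧ S m b τ) (N : ℕ) :
    ∃ (τ : List (List Bool)) (m b : ℕ → ℕ), Ext σ g τ ∧
      (∀ a < N, n ≤ m a ∧ g.length ≤ m a ∧ S (m a) (b a) τ ∧ b a ≤ τ.length) ∧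
      ∀ a a', a < a' → a' < N → b a ≤ m a' ∧ ∀ x y, m a ≤ x → x < b a → m a' ≤ y → y < b a' →
        (τ.getD y []).getD x false = p a a' := by
  classical
  induction N with
  | zero => exact ⟨σ, id, id, Ext.refl _ _, fun _ h => by omega, fun _ _ _ h => by omega⟩
  | succ N ih =>
    obtain ⟨τ, m, b, h1, h2, h3⟩ := ih
    let m0 := max (max n g.length) τ.length
    let q : ℕ → Bool := fun x =>
      if h : ∃ a < N, m a ≤ x ∧ x < b a then p (Classical.choose h) N else false
    have hq : ∀ a < N, ∀ x, m a ≤ x → x < b a → q x = p a N := by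
      intro a ha x h4 h5
      have h : ∃ a < N, m a ≤ x ∧ x < b a := ⟨a, ha, h4, h5⟩
      have h6 := Classical.choose_spec h
      simp only [q, dif_pos h]
      congr 1
      rcases lt_trichotomy (Classical.choose h) a with h7 | h7 | h7
      · have := (h3 _ _ h7 ha).1; omega
      · exact h7
      · have := (h3 _ _ h7 h6.1).1; omega
    let g' := pre (fun x => if x < g.length then g.getD x false else q x) m0
    have hg : g <+: g' := prefix_pre g false q (by omega)
    obtain ⟨τ1, b0, h4, h5⟩ := H τ g' h1 hg m0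
    obtain ⟨τ2, h6, h7⟩ := exists_ext τ1 g' b0
    have h8 : Ext τ g' τ2 := h4.trans h6 (List.prefix_refl _)
    refine ⟨τ2, Function.update m N m0, Function.update b N b0, h1.trans h8 hg, fun a ha => ?_,
      fun a a' h9 h10 => ?_⟩
    · rcases Nat.lt_succ_iff_lt_or_eq.1 ha with h | rfl
      · simp only [Function.update_of_ne h.ne]
        exact ⟨(h2 a h).1, (h2 a h).2.1, hS _ _ _ _ h8.1 (h2 a h).2.2.1,
          (h2 a h).2.2.2.trans h8.1.length_le⟩
      · simp only [Function.update_self]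
        exact ⟨by omega, by omega, hS _ _ _ _ h6.1 h5, h7⟩
    · have ha : a < N := by omega
      simp only [Function.update_of_ne ha.ne]
      rcases Nat.lt_succ_iff_lt_or_eq.1 h10 with h | rfl
      · simp only [Function.update_of_ne h.ne]
        refine ⟨(h3 a a' h9 h).1, fun x y e1 e2 e3 e4 => ?_⟩
        rw [getD_prefix h8.1 (e4.trans_le (h2 a' h).2.2.2)]
        exact (h3 a a' h9 h).2 x y e1 e2 e3 e4
      · simp only [Function.update_self]
        have e0 := h2 a ha
        refine ⟨by omega, fun x y e1 e2 e3 e4 => ?_⟩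
        have e5 : x < m0 := by omega
        rw [getD_prefix (h8.2 y (by omega) (by omega)) (by rw [length_pre]; exact e5),
          pre_getD _ e5, if_neg (by omega)]
        exact hq a ha x e1 e2

theorem exists_generic {M : SA} (hM : M.S.Countable) : ∃ G : ℕ → List Bool,
    Inv (Goal fun x y => (G y).getD x false) (ad M G) := by
  obtain ⟨k, e, he, he'⟩ := exists_enum (ι := List ℕ × ℕ) (β := List Bool) hM
  let C := List (List Bool) × List Bool
  let step : ℕ → C → C → Prop := fun t c c' => Ext c.1 c.2 c'.1 ∧ c.2 <+: c'.2 ∧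
    t ≤ c'.1.length ∧ ((∃ m, ∀ τ b, Ext c'.1 c'.2 τ → ¬ e t m b τ) ∨
      ∃ m b : ℕ → ℕ, (∀ a < (k t).1.length, (k t).2 ≤ m a ∧ e t (m a) (b a) c'.1 ∧
        b a ≤ c'.1.length) ∧ ∀ a a', a < a' → a' < (k t).1.length → b a ≤ m a' ∧
          ∀ x y, m a ≤ x → x < b a → m a' ≤ y → y < b a' →
            (c'.1.getD y []).getD x false = pat (k t).1 a a')
  have hstep : ∀ t c, ∃ c', step t c c' := by
    rintro t ⟨σ, g⟩
    obtain ⟨σ1, h1, h2⟩ := exists_ext σ g t
    by_cases H : ∀ σ' g', Ext σ1 g σ' → g <+: g' → ∀ m, ∃ τ b, Ext σ' g' τ ∧ e t m b τ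
    · obtain ⟨τ, m, b, h3, h4, h5⟩ := rounds σ1 g (pat (k t).1) (k t).2 (he t).2 H (k t).1.length
      exact ⟨(τ, g), h1.trans h3 (List.prefix_refl _), List.prefix_refl _,
        h2.trans h3.1.length_le, Or.inr ⟨m, b, fun a ha => ⟨(h4 a ha).1, (h4 a ha).2.2⟩, h5⟩⟩
    · simp only [not_forall, not_exists, not_and] at H
      obtain ⟨σ', g', h3, h4, m, h5⟩ := H
      exact ⟨(σ', g'), h1.trans h3 (List.prefix_refl _), h4, h2.trans h3.1.length_le,
        Or.inl ⟨m, h5⟩⟩
  obtain ⟨s, -, hs⟩ := exists_chain step hstep ([], [])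
  obtain ⟨G, hG1, hG2, hG3⟩ := exists_lim [] (fun t => (s t).1) (fun t => (hs t).1.1)
    fun t => (hs t).2.2.1
  have hm : ∀ t t', t ≤ t' → Ext (s t).1 (s t).2 (s t').1 ∧ (s t).2 <+: (s t').2 := by
    intro t t' h
    induction h with
    | refl => exact ⟨Ext.refl _ _, List.prefix_refl _⟩
    | step _ ih => exact ⟨ih.1.trans (hs _).1 ih.2, ih.2.trans (hs _).2.1⟩
  refine ⟨G, inv_ad hM fun i S hS htot _ => ?_⟩
  obtain ⟨t, rfl, rfl⟩ := he' i S hS
  rcases (hs t).2.2.2 with ⟨m, h⟩ | ⟨m, b, h1, h2⟩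
  · obtain ⟨b, u, hu⟩ := htot m
    exact absurd (hS.2 _ _ _ _ (hG3 u _ (by omega)) hu)
      (h _ b (hm (t + 1) (max (t + 1) (u + 1)) (le_max_left _ _)).1)
  · refine ⟨m, b, fun a ha => ⟨(h1 a ha).1, _, (hG2 (t + 1)).symm ▸ (h1 a ha).2.1⟩,
      fun a a' h3 h4 => ⟨(h2 a a' h3 h4).1, fun x y e1 e2 e3 e4 => ?_⟩⟩
    dsimp only
    rw [hG1 (t + 1) y (e4.trans_le (h1 a' h4).2.2)]
    exact (h2 a a' h3 h4).2 x y e1 e2 e3 e4

end Pool.Agent.H362Z.EM
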