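import Pool.Agent.H362Z.EM.B

/-!
Transitive subsets of tournaments preserve the invariant given by permutations.
-/

set_option autoImplicit false

namespace Pool.Agent.H362Z.EM

open Pool.Agent.H362Z.PRT

variable {M : SA} {α : Type} [Primcodable α]

/-- `y` is in the stem or in the reservoir -/
def In (σ : List Bool) (X : ℕ → Prop) (y : ℕ) : Prop :=
  σ.getD y false = true ∨ (σ.length ≤ y ∧ X y)

/-- triples starting in the stem are transitive -/
def Comp (T : ℕ → ℕ → Bool) (σ : List Bool) (X : ℕ → Prop) : Prop :=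
  ∀ z y x, x < y → y < z → σ.getD x false = true → In σ X y → In σ X z →
    T x y = T y z → T x z = T x y

variable {T : ℕ → ℕ → Bool} {σ η : List Bool} {X Y Z V : ℕ → Prop}

lemma In.of_ext (h : SExt σ η X) (e : ∀ y, Y y → X y) {y : ℕ} (hy : In η Y y) : In σ X y := by
  rcases hy with hy | hy
  · by_cases h1 : y < σ.length
    · exact Or.inl ((getD_of_prefix h.1 h1).symm.trans hy)
    · exact Or.inr ⟨not_lt.1 h1, h.2 y (not_lt.1 h1) hy⟩
  · exact Or.inr ⟨h.1.length_le.trans hy.1, e y hy.2⟩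

lemma Comp.mono (h : Comp T σ X) (e : ∀ y, Y y → X y) : Comp T σ Y :=
  fun z y x h1 h2 h3 h4 h5 => h z y x h1 h2 h3 (In.of_ext (SExt.refl _ _) e h4)
    (In.of_ext (SExt.refl _ _) e h5)

lemma Comp.low (hσ : Comp T σ X) (hη : SExt σ η X) (e : ∀ y, Y y → X y) {x y z : ℕ} (h1 : x < y)
    (h2 : y < z) (h0 : x < σ.length) (h3 : η.getD x false = true) (h4 : In η Y y) (h5 : In η Y z) :
    T x y = T y z → T x z = T x y :=
  hσ z y x h1 h2 ((getD_of_prefix hη.1 h0).symm.trans h3) (In.of_ext hη e h4) (In.of_ext hη e h5)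

lemma comp_of (hσ : Comp T σ X) (hη : SExt σ η V) (hV : ∀ y, V y → X y) (hZ : ∀ y, Z y → X y)
    (h0 : Comp T η fun _ => False)
    (ha : ∀ x y z, V x → x < η.length → Z y → Z z → T x y = T x z)
    (hb : ∀ x y z, x < y → V x → V y → Z z → T x y = T y z → T x z = T x y) : Comp T η Z := by
  intro z y x h1 h2 h3 h4 h5
  by_cases hx : x < σ.length
  · exact hσ.low (hη.mono hV) hZ h1 h2 hx h3 h4 h5
  · have h6 := hη.2 x (not_lt.1 hx) h3
    rcases h4 with h4 | h4
    · rcases h5 with h5 | h5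
      · exact h0 z y x h1 h2 h3 (Or.inl h4) (Or.inl h5)
      · exact hb x y z h1 h6 (hη.2 y (by omega) h4) h5.2
    · rcases h5 with h5 | h5
      · have := lt_of_getD h5
        omega
      · exact fun _ => (ha x y z h6 (lt_of_getD h3) h4.2 h5.2).symm

/-- padding by zeros -/
def pad (σ : List Bool) (m : ℕ) : List Bool := pre (fun x => σ.getD x false) m

lemma pad_getD {m : ℕ} (h : σ.length ≤ m) (x : ℕ) : (pad σ m).getD x false = σ.getD x false := by
  by_cases hx : x < m
  · exact pre_getD _ hx _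
  · rw [List.getD_eq_default _ _ (by simp [pad]; omega), List.getD_eq_default _ _ (by omega)]

lemma sExt_pad {m : ℕ} (h : σ.length ≤ m) (X : ℕ → Prop) : SExt σ (pad σ m) X := by
  refine ⟨?_, fun x h1 h2 => ?_⟩
  · conv_lhs => rw [← pre_getD_self σ false]
    exact pre_prefix _ h
  · rw [pad_getD h] at h2
    exact absurd (lt_of_getD h2) (not_lt.2 h1)

lemma Comp.pad {m : ℕ} (h : σ.length ≤ m) (hσ : Comp T σ X) : Comp T (pad σ m) X :=
  fun _ _ x h1 h2 h3 h4 h5 => hσ.low (sExt_pad h X) (fun _ h => h) h1 h2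
    (lt_of_getD ((pad_getD h x).symm.trans h3)) h3 h4 h5

lemma forward {S : ℕ → ℕ → List Bool → Prop} (hS : ∀ m b l l', l <+: l' → S m b l → S m b l')
    (n : ℕ) (m b : ℕ → ℕ) (W : ℕ → ℕ → Prop) (p : ℕ → ℕ → Bool) (hσ : Comp T σ X)
    (hm : ∀ j < n, σ.length ≤ m j) (hb : ∀ i j, i < j → j < n → b i ≤ m j)
    (hW : ∀ j y, W j y → X y ∧ y < b j)
    (h1 : ∀ j < n, ∀ y y' i, W j y → W j y' → i < m j → T i y = T i y')
    (h2 : ∀ i j, i < j → j < n → ∀ y z, W i y → W j z → T y z = p i j)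
    (hp : ∀ i j k, i < j → j < k → k < n → p i j = p j k → p i k = p i j)
    (H : ∀ j < n, ∀ η : List Bool, η.length = m j → SExt σ η X → Comp T η (W j) →
      ∃ τ b', SExt η τ (W j) ∧ Comp T τ (fun _ => False) ∧ τ.length ≤ b j ∧ b' ≤ b j ∧
        S (m j) b' τ) (k : ℕ) (hk : k ≤ n) :
    ∃ (η : List Bool) (b' : ℕ → ℕ), SExt σ η (fun y => ∃ j < k, W j y ∧ m j ≤ y) ∧
      Comp T η (fun _ => False) ∧ (∀ j, k ≤ j → j < n → η.length ≤ m j) ∧
      ∀ j < k, b' j ≤ b j ∧ S (m j) (b' j) η := by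
  induction k with
  | zero => exact ⟨σ, id, SExt.refl _ _, hσ.mono fun _ => False.elim, fun j _ => hm j,
      fun _ h => by omega⟩
  | succ k ih =>
    obtain ⟨η, b', h3, h4, h5, h6⟩ := ih (by omega)
    have h7 := h5 k le_rfl hk
    have h8 : SExt σ (pad η (m k)) fun y => ∃ j < k, W j y ∧ m j ≤ y :=
      h3.trans (sExt_pad h7 fun _ => False) fun _ => False.elim
    have h9 : ∀ y, (∃ j < k, W j y ∧ m j ≤ y) → X y := fun y ⟨j, _, h, _⟩ => (hW j y h).1
    have h10 : (pad η (m k)).length = m k := length_pre _ _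
    obtain ⟨τ, b0, e1, e2, e3, e4, e5⟩ := H k hk _ h10 (h8.mono h9)
      (comp_of hσ h8 h9 (fun y h => (hW k y h).1) (h4.pad h7)
        (fun x y z _ hx hy hz => h1 k hk y z x hy hz (h10 ▸ hx))
        (by
          rintro x y z hxy ⟨i, hi, hx, hx'⟩ ⟨j, hj, hy, -⟩ hz
          rw [h2 i k hi hk x z hx hz, h2 j k hj hk y z hy hz]
          rcases lt_trichotomy i j with h | rfl | h
          · rw [h2 i j h (by omega) x y hx hy]
            exact hp i j k h hj hk
          · exact Eq.symm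
          · have := hb j i h (by omega)
            have := (hW j y hy).2
            omega))
    refine ⟨τ, Function.update b' k b0, SExt.trans (Y := fun y => W k y ∧ m k ≤ y)
      (h8.mono fun y ⟨j, hj, h⟩ => ⟨j, by omega, h⟩)
      ⟨e1.1, fun x hx hx' => ⟨e1.2 x hx hx', h10 ▸ hx⟩⟩ fun y h => ⟨k, by omega, h⟩, e2,
      fun j hj hj' => e3.trans (hb k j hj hj'), fun j hj => ?_⟩
    rcases Nat.lt_succ_iff_lt_or_eq.1 hj with h | rfl
    · rw [Function.update_of_ne h.ne]
      exact ⟨(h6 j h).1, hS _ _ _ _ ((sExt_pad h7 X).1.trans e1.1) (h6 j h).2⟩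
    · rw [Function.update_self]
      exact ⟨e4, e5⟩

lemma backward {δ : Type} (d0 : δ) (N : ℕ) (P : ℕ → (ℕ → δ) → δ → Prop)
    (hdep : ∀ a w w' d, (∀ a', a < a' → w a' = w' a') → P a w d → P a w' d)
    (hex : ∀ a < N, ∀ w, ∃ d, P a w d) : ∃ w, ∀ a < N, P a w (w a) := by
  have key : ∀ k, ∃ w, ∀ a < N, N ≤ a + k → P a w (w a) := by
    intro k
    induction k with
    | zero => exact ⟨fun _ => d0, fun a h1 h2 => by omega⟩
    | succ k ih =>
      obtain ⟨w, hw⟩ := ih
      by_cases hk : k < N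
      · obtain ⟨d, hd⟩ := hex (N - (k + 1)) (by omega) w
        refine ⟨Function.update w (N - (k + 1)) d, fun a h1 h2 => ?_⟩
        have h3 : ∀ a', a < a' → w a' = Function.update w (N - (k + 1)) d a' :=
          fun a' h => (Function.update_of_ne (by omega) _ _).symm
        by_cases h : a = N - (k + 1)
        · subst h
          rw [Function.update_self]
          exact hdep _ _ _ _ h3 hd
        · rw [Function.update_of_ne h]
          exact hdep _ _ _ _ h3 (hw a h1 (by omega))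
      · exact ⟨w, fun a h1 _ => hw a h1 (by omega)⟩
  obtain ⟨w, hw⟩ := key N
  exact ⟨w, fun a ha => hw a ha (by omega)⟩

lemma dec_sExt {σ τ : α → List Bool} (hσ : InM M σ) (hτ : InM M τ) {p : α → ℕ → Prop}
    (hp : Dec M fun x : α × ℕ => p x.1 x.2) : Dec M fun a => SExt (σ a) (τ a) (p a) :=
  ((Dec.eq (by fun_prop) hσ).and (Dec.ball
    (p := fun a x => (x < (σ a).length ∨ (τ a).getD x false = false) ∨ p a x) (by fun_prop)
    (((Dec.lt (by fun_prop) (by fun_prop)).or (Dec.eq (by fun_prop) (by fun_prop))).or hp))).of_iff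
    fun a => (sExt_iff _ _ _).symm

lemma dec_in {σ : α → List Bool} (hσ : InM M σ) {p : α → ℕ → Prop}
    (hp : Dec M fun x : α × ℕ => p x.1 x.2) : Dec M fun x : α × ℕ => In (σ x.1) (p x.1) x.2 :=
  (Dec.eq (by fun_prop) (by fun_prop)).or ((Dec.le (by fun_prop) (by fun_prop)).and hp)

lemma dec_comp (hT : InM M fun x : ℕ × ℕ => T x.1 x.2) {σ : α → List Bool} (hσ : InM M σ)
    {p : α → ℕ → Prop} (hp : Dec M fun x : α × ℕ => p x.1 x.2) {t : α → ℕ} (ht : InM M t)
    (hpt : ∀ a y, p a y → y < t a) : Dec M fun a => Comp T (σ a) (p a) := by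
  have h0 := dec_in hσ hp
  have h1 : Dec M fun a => ∀ z < (σ a).length + t a, ∀ y < z, ∀ x < y,
      (σ a).getD x false = true → In (σ a) (p a) y → In (σ a) (p a) z →
        T x y = T y z → T x z = T x y := by
    refine Dec.ball (p := fun a z => ∀ y < z, ∀ x < y,
      (σ a).getD x false = true → In (σ a) (p a) y → In (σ a) (p a) z →
        T x y = T y z → T x z = T x y) (by fun_prop) ?_
    refine Dec.ball (p := fun (a : α × ℕ) y => ∀ x < y,
      (σ a.1).getD x false = true → In (σ a.1) (p a.1) y → In (σ a.1) (p a.1) a.2 →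
        T x y = T y a.2 → T x a.2 = T x y) (by fun_prop) ?_
    refine Dec.ball (p := fun (a : (α × ℕ) × ℕ) x =>
      (σ a.1.1).getD x false = true → In (σ a.1.1) (p a.1.1) a.2 → In (σ a.1.1) (p a.1.1) a.1.2 →
        T x a.2 = T a.2 a.1.2 → T x a.1.2 = T x a.2) (by fun_prop) ?_
    have e1 := hT.comp (g := fun a : ((α × ℕ) × ℕ) × ℕ => (a.2, a.1.2)) (by fun_prop)
    have e2 := hT.comp (g := fun a : ((α × ℕ) × ℕ) × ℕ => (a.1.2, a.1.1.2)) (by fun_prop)
    have e3 := hT.comp (g := fun a : ((α × ℕ) × ℕ) × ℕ => (a.2, a.1.1.2)) (by fun_prop)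
    exact (Dec.eq (by fun_prop) (by fun_prop)).imp
      ((h0.comp (f := fun a : ((α × ℕ) × ℕ) × ℕ => (a.1.1.1, a.1.2)) (by fun_prop)).imp
        ((h0.comp (f := fun a : ((α × ℕ) × ℕ) × ℕ => a.1.1) (by fun_prop)).imp
          ((Dec.eq e1 e2).imp (Dec.eq e3 e1))))
  refine h1.of_iff fun a => ⟨fun h z y x e1 e2 e3 e4 e5 => h z ?_ y e2 x e1 e3 e4 e5,
    fun h z _ y e2 x e1 => h z y x e1 e2⟩
  rcases e5 with e5 | e5
  · have := lt_of_getD e5
    omega
  · have := hpt a z e5.2
    omega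

/-- the part of colour `w` -/
def Part (X : ℕ → Bool) (l : List (List Bool)) (w : List Bool) (y : ℕ) : Prop :=
  X y = true ∧ l[y]? = some w

lemma part_pre {X : ℕ → Bool} {c : ℕ → List Bool} {u : ℕ} {w : List Bool} {y : ℕ} :
    Part X (pre c u) w y ↔ X y = true ∧ y < u ∧ c y = w := by
  refine and_congr_right fun _ => ⟨fun h => ?_, fun h => by rw [pre_getElem? c h.1, h.2]⟩
  have h1 : y < u := by
    by_contra hc
    rw [List.getElem?_eq_none (by simp; omega)] at h
    cases h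
  rw [pre_getElem? c h1] at h
  exact ⟨h1, Option.some.inj h⟩

/-- the part of colour `w` is good -/
def Good (T : ℕ → ℕ → Bool) (σ : List Bool) (X : ℕ → Bool) (S : ℕ → ℕ → List Bool → Prop)
    (m : ℕ) (l : List (List Bool)) (w : List Bool) : Prop :=
  ∀ η ∈ allL [false, true] m, SExt σ η (fun y => X y = true) ∧ Comp T η (Part X l w) →
    ∃ z : List Bool × ℕ, SExt η z.1 (Part X l w) ∧ Comp T z.1 (fun _ => False) ∧
      z.1.length ≤ l.length ∧ z.2 ≤ l.length ∧ S m z.2 z.1

lemma Good.mono {X : ℕ → Bool} {S : ℕ → ℕ → List Bool → Prop} {m : ℕ} {c : ℕ → List Bool}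
    {u v : ℕ} (huv : u ≤ v) {w : List Bool} (h : Good T σ X S m (pre c u) w) :
    Good T σ X S m (pre c v) w := by
  have e : ∀ y, Part X (pre c u) w y → Part X (pre c v) w y := fun y hy =>
    part_pre.2 ⟨(part_pre.1 hy).1, (part_pre.1 hy).2.1.trans_le huv, (part_pre.1 hy).2.2⟩
  intro η h1 h2
  obtain ⟨z, h3, h4, h5, h6, h7⟩ := h η h1 ⟨h2.1, h2.2.mono e⟩
  rw [length_pre] at h5 h6 ⊢
  exact ⟨z, h3.mono e, h4, by omega, by omega, h7⟩

lemma ce_good (hT : InM M fun x : ℕ × ℕ => T x.1 x.2) (σ : List Bool) {X : ℕ → Bool}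
    (hX : InM M X) {S : ℕ → ℕ → List Bool → Prop} (hS : Req M S) :
    CE M fun x : ℕ × List (List Bool) => ∃ w, Good T σ X S x.1 x.2 w := by
  have h0 : Dec M fun x : (List (List Bool) × List Bool) × ℕ => Part X x.1.1 x.1.2 x.2 :=
    (Dec.eq (by fun_prop) (by fun_prop)).and (Dec.eq
      (InM.prim₂ Primrec.list_getElem? (by fun_prop) (by fun_prop))
      (InM.prim₁ Primrec.option_some (by fun_prop)))
  refine CE.ex (p := fun (x : ℕ × List (List Bool)) w => Good T σ X S x.1 x.2 w) ?_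
  refine CE.allMem (p := fun (x : (ℕ × List (List Bool)) × List Bool) η =>
    SExt σ η (fun y => X y = true) ∧ Comp T η (Part X x.1.2 x.2) →
    ∃ z : List Bool × ℕ, SExt η z.1 (Part X x.1.2 x.2) ∧ Comp T z.1 (fun _ => False) ∧
      z.1.length ≤ x.1.2.length ∧ z.2 ≤ x.1.2.length ∧ S x.1.1 z.2 z.1)
    (InM.prim₂ primrec_allL (by fun_prop) (by fun_prop)) ?_
  refine CE.of_iff (CE.or (Dec.and ?_ ?_).2 ?_) fun _ => imp_iff_not_or.symm
  · exact dec_sExt (p := fun _ y => X y = true) (by fun_prop) (by fun_prop)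
      (Dec.eq (by fun_prop) (by fun_prop))
  · refine dec_comp hT (p := fun (x : ((ℕ × List (List Bool)) × List Bool) × List Bool) =>
      Part X x.1.1.2 x.1.2) (by fun_prop) (h0.comp
        (f := fun x : (((ℕ × List (List Bool)) × List Bool) × List Bool) × ℕ =>
          ((x.1.1.1.2, x.1.1.2), x.2)) (by fun_prop)) (t := fun x => x.1.1.2.length)
      (by fun_prop) fun a y h => ?_
    by_contra hc
    have := h.2
    rw [List.getElem?_eq_none (by omega)] at this
    cases this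
  · refine CE.ex (p := fun (x : ((ℕ × List (List Bool)) × List Bool) × List Bool)
      (z : List Bool × ℕ) => SExt x.2 z.1 (Part X x.1.1.2 x.1.2) ∧ Comp T z.1 (fun _ => False) ∧
        z.1.length ≤ x.1.1.2.length ∧ z.2 ≤ x.1.1.2.length ∧ S x.1.1.1 z.2 z.1) ?_
    refine CE.and (ce_sExt (p := fun
      (x : (((ℕ × List (List Bool)) × List Bool) × List Bool) × (List Bool × ℕ)) =>
        Part X x.1.1.1.2 x.1.1.2) (by fun_prop) (by fun_prop) (h0.1.comp
        (f := fun x : ((((ℕ × List (List Bool)) × List Bool) × List Bool) × (List Bool × ℕ)) × ℕ =>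
          ((x.1.1.1.1.2, x.1.1.1.2), x.2)) (by fun_prop))) (CE.and ?_
      ((CE.le (by fun_prop) (by fun_prop)).and ((CE.le (by fun_prop) (by fun_prop)).and
        (hS.1.comp (f := fun x : (((ℕ × List (List Bool)) × List Bool) × List Bool) ×
          (List Bool × ℕ) => (x.1.1.1.1, x.2.2, x.2.1)) (by fun_prop)))))
    exact (dec_comp hT (p := fun _ _ => False) (by fun_prop)
      ⟨CE.const _, CE.const _⟩ (t := fun _ => 0) (by fun_prop) fun _ _ => False.elim).1

lemma grow (hT : InM M fun x : ℕ × ℕ => T x.1 x.2) {X : ℕ → Bool} (hXM : InM M X) (hX : Inf X)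
    (hσ : Comp T σ fun y => X y = true) (t : ℕ) : ∃ (η : List Bool) (Y : ℕ → Bool),
      InM M Y ∧ Inf Y ∧ (Comp T η fun y => Y y = true) ∧ SExt σ η (fun y => X y = true) ∧
      (∀ y, Y y = true → X y = true) ∧ ∃ y, t ≤ y ∧ η.getD y false = true := by
  obtain ⟨y0, h1, h2⟩ := hX (max t σ.length)
  obtain ⟨ty, Y, h3, h4, h5⟩ := exists_type hT hX hXM (y0 + 1)
  let η := pre (fun x => if x < σ.length then σ.getD x false else decide (x = y0)) (y0 + 1)
  have h6 : SExt σ η fun y => y = y0 := by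
    refine ⟨prefix_pre σ false _ (by omega), fun x hx hx' => ?_⟩
    have := lt_of_getD hx'
    rw [length_pre] at this
    rw [pre_getD _ this, if_neg (not_lt.2 hx)] at hx'
    simpa using hx'
  have h7 : ∀ y, y = y0 → X y = true := fun y h => h ▸ h2
  refine ⟨η, Y, h3, h4, comp_of hσ h6 h7 (fun y h => (h5 y h).1) ?_ ?_ ?_, h6.mono h7,
    fun y h => (h5 y h).1, y0, by omega, ?_⟩
  · intro z y x e1 e2 e3 e4 e5
    by_cases hx : x < σ.length
    · exact hσ.low (h6.mono h7) (fun _ => False.elim) e1 e2 hx e3 e4 e5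
    · have := h6.2 x (not_lt.1 hx) e3
      have := h6.2 y (by omega) (e4.resolve_right fun h => h.2)
      omega
  · rintro x y z rfl - hy hz
    rw [(h5 y hy).2 x (by omega), (h5 z hz).2 x (by omega)]
  · rintro x y z h rfl rfl
    omega
  · rw [pre_getD _ (Nat.lt_succ_self _), if_neg (by omega)]
    simp

end Pool.Agent.H362Z.EM
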