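import Pool.Agent.H362Z.EM.C

/-!
The forcing step and the final class.
-/

set_option autoImplicit false

namespace Pool.Agent.H362Z.EM

open Pool.Agent.H362Z.PRT

variable {M : SA} {T f : ℕ → ℕ → Bool} {σ : List Bool}

lemma step_total (hT : InM M fun x : ℕ × ℕ => T x.1 x.2) {X : ℕ → Bool} (hXM : InM M X)
    (hX : Inf X) (hσ : Comp T σ fun y => X y = true) {S : ℕ → ℕ → List Bool → Prop}
    (hS : ∀ m b l l', l <+: l' → S m b l → S m b l') (v w : List ℕ) (n : ℕ)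
    (hw : ∀ (τ : ℕ → ℕ → Bool) (χ : ℕ → Bool), ∃ (e : ℕ → ℕ) (t : Bool → Bool) (c : Bool),
      (∀ i < v.length, e i < w.length ∧ χ (e i) = c) ∧ ∀ i j, i < j → j < v.length →
        e i < e j ∧ pat w (e i) (e j) = pat v i j ∧ τ (e i) (e j) = t (pat v i j))
    (m b : ℕ → ℕ) (h1 : ∀ a < w.length, max n σ.length ≤ m a ∧ ∀ c : ℕ → List Bool,
      (∀ x, c x ∈ allL [false, true] (m a + w.length + 1)) →
        ∃ d, Good T σ X S (m a) (pre c (b a)) d)
    (h2 : ∀ a a', a < a' → a' < w.length → b a ≤ m a' ∧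
      ∀ x y, m a ≤ x → x < b a → m a' ≤ y → y < b a' → f x y = pat w a a') :
    ∃ (η : List Bool) (Y : ℕ → Bool), InM M Y ∧ Inf Y ∧ (Comp T η fun y => Y y = true) ∧
      SExt σ η (fun y => X y = true) ∧ (∀ y, Y y = true → X y = true) ∧
      Goal f (v, n) fun m b => S m b η := by
  obtain ⟨ty, Y, h3, h4, h5⟩ := exists_type hT hX hXM ((Finset.range w.length).sup b)
  let col : ℕ → (ℕ → List Bool) → ℕ → List Bool := fun a u y =>
    pre (fun i => if i < m a then T i y else if i < m a + w.length then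
      (if a < i - m a then (u (i - m a)).getD y false else false) else ty y) (m a + w.length + 1)
  obtain ⟨u, hu⟩ := backward [] w.length
    (fun a u d => Good T σ X S (m a) (pre (col a u) (b a)) d)
    (fun a u u' d h H => by
      have : col a u = col a u' := funext fun y => pre_congr fun i _ => by
        by_cases hi : a < i - m a
        · rw [h _ hi]
        · simp only [if_neg hi]
      rwa [← this])
    fun a ha u => (h1 a ha).2 _ fun x => (mem_allB _ _).2 (length_pre _ _)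
  let W : ℕ → ℕ → Prop := fun a => Part X (pre (col a u) (b a)) (u a)
  have hW1 : ∀ a y, W a y → ∀ i < m a, T i y = (u a).getD i false := by
    intro a y h i hi
    rw [← (part_pre.1 h).2.2, pre_getD _ (by omega), if_pos hi]
  have hW2 : ∀ a y, W a y → ∀ a', a < a' → a' < w.length →
      (u a').getD y false = (u a).getD (m a + a') false := by
    intro a y h a' e1 e2
    rw [← (part_pre.1 h).2.2, pre_getD _ (by omega), if_neg (by omega), if_pos (by omega),
      Nat.add_sub_cancel_left, if_pos e1]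
  have hW3 : ∀ a y, W a y → ty y = (u a).getD (m a + w.length) false := by
    intro a y h
    rw [← (part_pre.1 h).2.2, pre_getD _ (by omega), if_neg (by omega), if_neg (by omega)]
  obtain ⟨e, t, c, he1, he2⟩ := hw (fun a a' => (u a).getD (m a + a') false)
    fun a => (u a).getD (m a + w.length) false
  have hWX : ∀ j y, W (e j) y → X y = true ∧ y < b (e j) := fun j y h =>
    ⟨(part_pre.1 h).1, (part_pre.1 h).2.1⟩
  have hb : ∀ i j, i < j → j < v.length → b (e i) ≤ m (e j) := fun i j e1 e2 =>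
    (h2 _ _ (he2 i j e1 e2).1 (he1 j e2).1).1
  obtain ⟨η, b', e1, e2, -, e3⟩ := forward hS v.length (fun j => m (e j)) (fun j => b (e j))
    (fun j => W (e j)) (fun i j => t (pat v i j)) hσ
    (fun j hj => (le_max_right _ _).trans (h1 _ (he1 j hj).1).1) hb hWX
    (fun j _ y y' i e1 e2 e3 => (hW1 _ y e1 i e3).trans (hW1 _ y' e2 i e3).symm)
    (fun i j e1 e2 y z e3 e4 => by
      rw [hW1 _ z e4 y ((hWX i y e3).2.trans_le (hb i j e1 e2)),
        hW2 _ y e3 _ (he2 i j e1 e2).1 (he1 j e2).1]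
      exact (he2 i j e1 e2).2.2)
    (fun i j k _ _ _ h => by
      by_cases h' : pat v i j = pat v j k
      · congr 1
        simp only [pat, decide_eq_decide] at h' ⊢
        omega
      · revert h h'
        cases pat v i j <;> cases pat v j k <;> cases pat v i k <;> simp <;> exact Eq.symm)
    (fun j hj η e1 e2 e3 => by
      obtain ⟨z, e4, e5, e6, e7, e8⟩ := hu _ (he1 j hj).1 η ((mem_allB _ _).2 e1) ⟨e2, e3⟩
      rw [length_pre] at e6 e7
      exact ⟨z.1, z.2, e4, e5, e6, e7, e8⟩) v.length le_rfl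
  have h6 : ∀ y, (∃ j < v.length, W (e j) y ∧ m (e j) ≤ y) → X y = true :=
    fun y ⟨j, _, h, _⟩ => (hWX j y h).1
  have h7 : ∀ x z, (∃ j < v.length, W (e j) x ∧ m (e j) ≤ x) → Y z = true → T x z = c := by
    rintro x z ⟨j, hj, h, -⟩ hz
    rw [(h5 z hz).2 x ((hWX j x h).2.trans_le
      (Finset.le_sup (f := b) (Finset.mem_range.2 (he1 j hj).1))), hW3 _ x h]
    exact (he1 j hj).2
  refine ⟨η, Y, h3, h4, comp_of hσ e1 h6 (fun y h => (h5 y h).1) e2
    (fun x y z hx _ hy hz => (h7 x y hx hy).trans (h7 x z hx hz).symm)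
    (fun x y z _ hx hy hz h => by rw [h, h7 x z hx hz, h7 y z hy hz]), e1.mono h6,
    fun y h => (h5 y h).1, fun _ => ⟨fun j => m (e j), b', fun j hj =>
      ⟨(le_max_left _ _).trans (h1 _ (he1 j hj).1).1, (e3 j hj).2⟩, fun i j hij hj =>
      ⟨(e3 i (hij.trans hj)).1.trans (hb i j hij hj), fun x y e4 e5 e6 e7 => ?_⟩⟩⟩
  exact ((h2 _ _ (he2 i j hij hj).1 (he1 j hj).1).2 x y e4 (e5.trans_le (e3 i (hij.trans hj)).1)
    e6 (e7.trans_le (e3 j hj).1)).trans (he2 i j hij hj).2.1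

lemma step_force (hM : Inv (Goal f) M) (hT : InM M fun x : ℕ × ℕ => T x.1 x.2) {X : ℕ → Bool}
    (hXM : InM M X) (hX : Inf X) {S : ℕ → ℕ → List Bool → Prop} (hS : Req M S) (m K : ℕ)
    (hm : ∀ b, ∃ c : ℕ → List Bool, (∀ x, c x ∈ allL [false, true] K) ∧
      ¬ ∃ u, u ≤ b ∧ ∃ d, Good T σ X S m (pre c u) d) :
    ∃ (η : List Bool) (Y : ℕ → Bool) (N : SA), Le M N ∧ Inv (Goal f) N ∧ InM N Y ∧ Inf Y ∧
      (Comp T η fun y => Y y = true) ∧ SExt σ η (fun y => X y = true) ∧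
      (∀ y, Y y = true → X y = true) ∧ ∀ τ b, SExt η τ (fun y => Y y = true) →
        (Comp T τ fun _ => False) → ¬ S m b τ := by
  have hO : Sig M fun (_ : Unit) (c : ℕ → List Bool) => ∃ u, ∃ d, Good T σ X S m (pre c u) d :=
    Sig.mk' (fun _ l => ∃ d, Good T σ X S m l d) ((ce_good hT σ hXM hS).comp
      (f := fun x : Unit × List (List Bool) => (m, x.2)) (by fun_prop)) fun _ _ => Iff.rfl
  obtain ⟨c, h1, h2, h3⟩ := wkl (mono_goal f) hM (allL [false, true] K) hO (by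
    by_contra hc
    obtain ⟨b, hb⟩ := compact_bound (allL [false, true] K)
      (fun b c => ∃ u, u ≤ b ∧ ∃ d, Good T σ X S m (pre c u) d)
      (fun u v h huv ⟨w, e1, e2⟩ => ⟨w, e1.trans huv, e2⟩)
      (fun u h h' e ⟨w, e1, e2⟩ => ⟨w, e1, pre_congr (fun x hx => e x (hx.trans_le e1)) ▸ e2⟩)
      (fun c hc' => by
        obtain ⟨u, hu⟩ := not_not.1 fun h => hc ⟨c, hc', h⟩
        exact ⟨u, u, le_rfl, hu⟩)
    obtain ⟨c, e1, e2⟩ := hm b
    exact e2 (hb c e1))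
  obtain ⟨w, Y, h4, h5, h6⟩ := exists_part _ hX (hXM.mono (le_ad M c)) (inM_ad M c) h1
  simp only [Good, not_exists, not_forall] at h2
  choose η h7 h8 h9 using fun u => h2 u w
  obtain ⟨η0, h10⟩ := pigeon _ (X := fun _ => true) (fun n => ⟨n, le_rfl, rfl⟩) η h7
  have key : ∀ u y, y < u → Y y = true → Part X (pre c u) w y := fun u y e1 e2 =>
    part_pre.2 ⟨(h6 y e2).1, e1, (h6 y e2).2⟩
  refine ⟨η0, Y, ad M c, le_ad M c, h3, h4, h5, fun z y x e1 e2 e3 e4 e5 => ?_, ?_,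
    fun y h => (h6 y h).1, fun τ b e1 e2 e3 => ?_⟩
  · obtain ⟨u, e6, -, rfl⟩ := h10 (z + 1)
    exact (h8 u).2 z y x e1 e2 e3 (e4.imp_right fun h => ⟨h.1, key u y (by omega) h.2⟩)
      (e5.imp_right fun h => ⟨h.1, key u z (by omega) h.2⟩)
  · obtain ⟨u, -, -, rfl⟩ := h10 0
    exact (h8 u).1
  · obtain ⟨u, e6, -, rfl⟩ := h10 (max τ.length b)
    refine h9 u (τ, b) ⟨⟨e1.1, fun x e4 e5 => key u x ?_ (e1.2 x e4 e5)⟩, e2, ?_, ?_, e3⟩
    · have := lt_of_getD e5
      dsimp only at this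
      omega
    · rw [length_pre]; dsimp only; omega
    · rw [length_pre]; dsimp only; omega

lemma step_req (hM : Inv (Goal f) M) (hT : InM M fun x : ℕ × ℕ => T x.1 x.2) {X : ℕ → Bool}
    (hXM : InM M X) (hX : Inf X) (hσ : Comp T σ fun y => X y = true)
    {S : ℕ → ℕ → List Bool → Prop} (hS : Req M S) (k : List ℕ × ℕ) :
    ∃ (η : List Bool) (Y : ℕ → Bool) (N : SA), Le M N ∧ Inv (Goal f) N ∧ InM N Y ∧ Inf Y ∧
      (Comp T η fun y => Y y = true) ∧ SExt σ η (fun y => X y = true) ∧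
      (∀ y, Y y = true → X y = true) ∧ ((Goal f k fun m b => S m b η) ∨
        ∃ m, ∀ τ b, SExt η τ (fun y => Y y = true) → (Comp T τ fun _ => False) → ¬ S m b τ) := by
  obtain ⟨v, n⟩ := k
  by_cases hv : v.Nodup
  swap
  · exact ⟨σ, X, M, Le.refl M, hM, hXM, hX, hσ, SExt.refl _ _, fun _ h => h,
      Or.inl fun h => absurd h hv⟩
  obtain ⟨w, hw, hw'⟩ := grid v hv
  by_cases hq : ∀ m, ∃ b, ∀ c : ℕ → List Bool, (∀ x, c x ∈ allL [false, true] (m + w.length + 1)) →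
      ∃ u, u ≤ b ∧ ∃ d, Good T σ X S m (pre c u) d
  · have hO : Sig M fun (x : ℕ × ℕ) (c : ℕ → List Bool) =>
        ∃ u, u ≤ x.2 ∧ ∃ d, Good T σ X S x.1 (pre c u) d :=
      Sig.mk' (fun x l => l.length ≤ x.2 ∧ ∃ d, Good T σ X S x.1 l d)
        ((CE.le (by fun_prop) (by fun_prop)).and ((ce_good hT σ hXM hS).comp
          (f := fun x : (ℕ × ℕ) × List (List Bool) => (x.1.1, x.2)) (by fun_prop)))
        fun _ _ => by simp only [length_pre]
    obtain ⟨m, b, h1, h2⟩ := hM.good (w, max n σ.length) _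
      (hO.ce_forall (L := fun x => allL [false, true] (x.1 + w.length + 1))
        (InM.prim₂ primrec_allL (by fun_prop) (by fun_prop))) hq hw
    obtain ⟨η, Y, h3, h4, h5, h6, h7, h8⟩ := step_total hT hXM hX hσ hS.2 v w n hw' m b
      (fun a ha => ⟨(h1 a ha).1, fun c hc => by
        obtain ⟨u, e1, d, e2⟩ := (h1 a ha).2 c hc
        exact ⟨d, e2.mono e1⟩⟩) h2
    exact ⟨η, Y, M, Le.refl M, hM, h3, h4, h5, h6, h7, Or.inl h8⟩
  · simp only [not_forall, not_exists] at hq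
    obtain ⟨m, hm⟩ := hq
    obtain ⟨η, Y, N, h1, h2, h3, h4, h5, h6, h7, h8⟩ := step_force (σ := σ) hM hT hXM hX hS m
      (m + w.length + 1) fun b => by
        obtain ⟨c, e1, e2⟩ := hm b
        exact ⟨c, e1, not_exists.2 e2⟩
    exact ⟨η, Y, N, h1, h2, h3, h4, h5, h6, h7, Or.inr ⟨m, h8⟩⟩

theorem em (hM : Inv (Goal f) M) (hT : InM M fun x : ℕ × ℕ => T x.1 x.2) :
    ∃ G : ℕ → Bool, Inv (Goal f) (ad M G) ∧ Inf G ∧ ∀ x y z, x < y → y < z → G x = true →
      G y = true → G z = true → T x y = T y z → T x z = T x y := by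
  obtain ⟨k, e, he, he'⟩ := exists_enum (ι := List ℕ × ℕ) (β := Bool) hM.count
  let C := {c : List Bool × (ℕ → Bool) × SA // Le M c.2.2 ∧ Inv (Goal f) c.2.2 ∧
    InM c.2.2 c.2.1 ∧ Inf c.2.1 ∧ Comp T c.1 fun y => c.2.1 y = true}
  let step : ℕ → C → C → Prop := fun t c c' =>
    SExt c.1.1 c'.1.1 (fun x => c.1.2.1 x = true) ∧ (∀ x, c'.1.2.1 x = true → c.1.2.1 x = true) ∧
    (∃ y, t ≤ y ∧ c'.1.1.getD y false = true) ∧ ((Goal f (k t) fun m b => e t m b c'.1.1) ∨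
      ∃ m, ∀ τ b, SExt c'.1.1 τ (fun y => c'.1.2.1 y = true) → (Comp T τ fun _ => False) →
        ¬ e t m b τ)
  have hstep : ∀ t c, ∃ c', step t c c' := by
    rintro t ⟨⟨σ, X, N⟩, h1, h2, h3, h4, h5⟩
    dsimp only at h1 h2 h3 h4 h5
    obtain ⟨σ1, X1, e1, e2, e3, e4, e5, y, e6, e7⟩ := grow (hT.mono h1) h3 h4 h5 t
    obtain ⟨η, Y, N', g1, g2, g3, g4, g5, g6, g7, g8⟩ := step_req h2 (hT.mono h1) e1 e2 e3
      (S := e t) ⟨(he t).1.mono h1, (he t).2⟩ (k t)
    exact ⟨⟨(η, Y, N'), h1.trans g1, g2, g3, g4, g5⟩, e4.trans g6 e5, fun x h => e5 x (g7 x h),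
      ⟨y, e6, getD_mono g6.1 e7⟩, g8⟩
  obtain ⟨s, -, hs⟩ := exists_chain step hstep ⟨([], fun _ => true, M), Le.refl M, hM,
    InM.const _, fun n => ⟨n, le_rfl, rfl⟩, fun _ _ _ _ _ h => by simp at h⟩
  obtain ⟨G, hG1, hG2, hG3⟩ := exists_limit (fun t => (s t).1.1) (fun t => (hs t).1.1)
    (fun t => by
      obtain ⟨y, h1, h2⟩ := (hs t).2.2.1
      exact h1.trans (lt_of_getD h2).le)
  have hm : ∀ t t', t ≤ t' → SExt (s t).1.1 (s t').1.1 (fun x => (s t).1.2.1 x = true) ∧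
      ∀ x, (s t').1.2.1 x = true → (s t).1.2.1 x = true := by
    intro t t' h
    induction h with
    | refl => exact ⟨SExt.refl _ _, fun _ h => h⟩
    | step _ ih => exact ⟨ih.1.trans (hs _).1 ih.2, fun x hx => ih.2 x ((hs _).2.1 x hx)⟩
  refine ⟨G, inv_ad hM.count fun i S hS htot => ?_, fun n => ?_, fun x y z h1 h2 h3 h4 h5 => ?_⟩
  · obtain ⟨t, rfl, rfl⟩ := he' i S hS
    rcases (hs t).2.2.2 with h | ⟨m, h⟩
    · exact mono_goal f _ _ _ (fun m b h => ⟨b, le_rfl, _, (hG2 (t + 1)).symm ▸ h⟩) h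
    · obtain ⟨b, u, hu⟩ := htot m
      exact absurd (hS.2 _ _ _ _ (hG3 u _ (by omega)) hu)
        (h _ b (hm (t + 1) (max (t + 1) (u + 1)) (le_max_left _ _)).1
          ((s _).2.2.2.2.2.mono fun _ => False.elim))
  · obtain ⟨y, h1, h2⟩ := (hs n).2.2.1
    exact ⟨y, h1, (hG1 (n + 1) y (lt_of_getD h2)).trans h2⟩
  · have key : ∀ w ≤ z, G w = true → (s (z + 2)).1.1.getD w false = true := fun w e1 e2 =>
      getD_mono (hG3 (z + 1) _ (by omega)) ((pre_getD G (by omega) false).trans e2)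
    exact (s (z + 2)).2.2.2.2.2 z y x h1 h2 (key x (by omega) h3) (Or.inl (key y h2.le h4))
      (Or.inl (key z le_rfl h5))

/-- infinite transitive sets exist -/
def HasTrans (T : ℕ × ℕ → Bool) (N : SA) : Prop :=
  ∃ G : ℕ → Bool, InM N G ∧ Inf G ∧ ∀ x y z, x < y → y < z → G x = true →
    G y = true → G z = true → T (x, y) = T (y, z) → T (x, z) = T (x, y)

theorem exists_model : ∃ (N : SA) (f : ℕ × ℕ → Bool), InM N f ∧ (∀ T, InM N T → HasTrans T N) ∧
    ∀ H : ℕ → Bool, InM N H → Inf H → ∀ v : List ℕ, v.Nodup → ∃ x : ℕ → ℕ,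
      (∀ i < v.length, H (x i) = true) ∧ ∀ i j, i < j → j < v.length →
        x i < x j ∧ f (x i, x j) = pat v i j := by
  obtain ⟨G, hG⟩ := exists_generic countable_base
  obtain ⟨N, h1, h2, h3⟩ := exists_closure (P := HasTrans)
    (fun T N N' h ⟨G, h1, h2⟩ => ⟨G, h1.mono h, h2⟩)
    (fun T N hN hT => by
      obtain ⟨G, h1, h2⟩ := em (T := fun x y => T (x, y)) hN hT
      exact ⟨ad N G, le_ad N G, h1, G, inM_ad N G, h2⟩) hG
  have hGN : InM N G := (inM_ad base G).mono h1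
  refine ⟨N, fun x => (G x.2).getD x.1 false, by fun_prop, h3, fun H hH hH' v hv => ?_⟩
  obtain ⟨m, b, e1, e2⟩ := h2.good (v, 0) (fun m b => ∃ x, m ≤ x ∧ x < b ∧ H x = true)
    (CE.exNat (p := fun (y : ℕ × ℕ) x => y.1 ≤ x ∧ x < y.2 ∧ H x = true)
      ((CE.le (by fun_prop) (by fun_prop)).and ((CE.lt (by fun_prop) (by fun_prop)).and
        (CE.eq (by fun_prop) (by fun_prop)))))
    (fun m => by
      obtain ⟨y, e1, e2⟩ := hH' m
      exact ⟨y + 1, y, e1, Nat.lt_succ_self y, e2⟩) hv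
  have : ∀ a, ∃ x, a < v.length → m a ≤ x ∧ x < b a ∧ H x = true := by
    intro a
    by_cases ha : a < v.length
    · exact (e1 a ha).2.imp fun _ h _ => h
    · exact ⟨0, fun h => absurd h ha⟩
  choose x hx using this
  refine ⟨x, fun i hi => (hx i hi).2.2, fun i j hij hj => ?_⟩
  have e3 := hx i (hij.trans hj)
  have e4 := hx j hj
  have e5 := e2 i j hij hj
  exact ⟨by omega, e5.2 _ _ e3.1 e3.2.1 e4.1 e4.2.1⟩

end Pool.Agent.H362Z.EM
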