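import Pool.Agent.H362Z.EM.D

/-!
Sets avoiding the pattern `1302` preserve two hyperimmunities.
-/

set_option autoImplicit false

namespace Pool.Agent.H362Z.EM

open Pool.Agent.H362Z.PRT

variable {M : SA} {α : Type} [Primcodable α]

theorem mathias {ι : Type} [Countable ι] [Nonempty ι] {Γ : ι → (ℕ → ℕ → Prop) → Prop}
    (hΓ : Mono Γ) (hM : Inv Γ M) (Cond : List Bool → (ℕ → Prop) → Prop)
    (hmono : ∀ σ X, Cond σ X → Cond σ fun _ => False) (h0 : Cond [] fun _ => true = true)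
    (hgrow : ∀ N, Le M N → ∀ X : ℕ → Bool, InM N X → Inf X → ∀ σ, (Cond σ fun y => X y = true) →
      ∀ t, ∃ (η : List Bool) (Y : ℕ → Bool), InM N Y ∧ Inf Y ∧ (Cond η fun y => Y y = true) ∧
        SExt σ η (fun y => X y = true) ∧ (∀ y, Y y = true → X y = true) ∧
        ∃ y, t ≤ y ∧ η.getD y false = true)
    (hreq : ∀ N, Le M N → Inv Γ N → ∀ X : ℕ → Bool, InM N X → Inf X → ∀ σ,
      (Cond σ fun y => X y = true) → ∀ S, Req N S → ∀ k,
      ∃ (η : List Bool) (Y : ℕ → Bool) (N' : SA), Le N N' ∧ Inv Γ N' ∧ InM N' Y ∧ Inf Y ∧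
        (Cond η fun y => Y y = true) ∧ SExt σ η (fun y => X y = true) ∧
        (∀ y, Y y = true → X y = true) ∧ ((Γ k fun m b => S m b η) ∨
          ∃ m, ∀ τ b, SExt η τ (fun y => Y y = true) → (Cond τ fun _ => False) → ¬ S m b τ)) :
    ∃ G : ℕ → Bool, Inv Γ (ad M G) ∧ Inf G ∧ ∀ u, ∃ τ, (Cond τ fun _ => False) ∧
      ∀ w ≤ u, G w = true → τ.getD w false = true := by
  obtain ⟨k, e, he, he'⟩ := exists_enum (ι := ι) (β := Bool) hM.count
  let C := {c : List Bool × (ℕ → Bool) × SA // Le M c.2.2 ∧ Inv Γ c.2.2 ∧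
    InM c.2.2 c.2.1 ∧ Inf c.2.1 ∧ Cond c.1 fun y => c.2.1 y = true}
  let step : ℕ → C → C → Prop := fun t c c' =>
    SExt c.1.1 c'.1.1 (fun x => c.1.2.1 x = true) ∧ (∀ x, c'.1.2.1 x = true → c.1.2.1 x = true) ∧
    (∃ y, t ≤ y ∧ c'.1.1.getD y false = true) ∧ ((Γ (k t) fun m b => e t m b c'.1.1) ∨
      ∃ m, ∀ τ b, SExt c'.1.1 τ (fun y => c'.1.2.1 y = true) → (Cond τ fun _ => False) →
        ¬ e t m b τ)
  have hstep : ∀ t c, ∃ c', step t c c' := by
    rintro t ⟨⟨σ, X, N⟩, h1, h2, h3, h4, h5⟩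
    dsimp only at h1 h2 h3 h4 h5
    obtain ⟨σ1, X1, e1, e2, e3, e4, e5, y, e6, e7⟩ := hgrow N h1 X h3 h4 σ h5 t
    obtain ⟨η, Y, N', g1, g2, g3, g4, g5, g6, g7, g8⟩ := hreq N h1 h2 X1 e1 e2 σ1 e3
      (e t) ⟨(he t).1.mono h1, (he t).2⟩ (k t)
    exact ⟨⟨(η, Y, N'), h1.trans g1, g2, g3, g4, g5⟩, e4.trans g6 e5, fun x h => e5 x (g7 x h),
      ⟨y, e6, getD_mono g6.1 e7⟩, g8⟩
  obtain ⟨s, -, hs⟩ := exists_chain step hstep ⟨([], fun _ => true, M), Le.refl M, hM,
    InM.const _, fun n => ⟨n, le_rfl, rfl⟩, h0⟩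
  obtain ⟨G, hG1, hG2, hG3⟩ := exists_limit (fun t => (s t).1.1) (fun t => (hs t).1.1)
    (fun t => by
      obtain ⟨y, h1, h2⟩ := (hs t).2.2.1
      exact h1.trans (lt_of_getD h2).le)
  have hm : ∀ t t', t ≤ t' → SExt (s t).1.1 (s t').1.1 (fun x => (s t).1.2.1 x = true) ∧
      ∀ x, (s t').1.2.1 x = true → (s t).1.2.1 x = true := by
    intro t t' h
    induction h with
    | refl => exact ⟨SExt.refl _ _, fun _ h => h⟩
    | step _ ih => exact ⟨ih.1.trans (hs _).1 ih.2, fun x hx => ih.2 x ((hs _).2.1 x hx)⟩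
  refine ⟨G, inv_ad hM.count fun i S hS htot => ?_, fun n => ?_, fun z => ?_⟩
  · obtain ⟨t, rfl, rfl⟩ := he' i S hS
    rcases (hs t).2.2.2 with h | ⟨m, h⟩
    · exact hΓ _ _ _ (fun m b h => ⟨b, le_rfl, _, (hG2 (t + 1)).symm ▸ h⟩) h
    · obtain ⟨b, u, hu⟩ := htot m
      exact absurd (hS.2 _ _ _ _ (hG3 u _ (by omega)) hu)
        (h _ b (hm (t + 1) (max (t + 1) (u + 1)) (le_max_left _ _)).1
          (hmono _ _ (s _).2.2.2.2.2))
  · obtain ⟨y, h1, h2⟩ := (hs n).2.2.1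
    exact ⟨y, h1, (hG1 (n + 1) y (lt_of_getD h2)).trans h2⟩
  · exact ⟨_, hmono _ _ (s (z + 2)).2.2.2.2.2, fun w e1 e2 =>
      getD_mono (hG3 (z + 1) _ (by omega)) ((pre_getD G (by omega) false).trans e2)⟩

/-- the goal: an interval on which `B` holds and `A` has a given constant value -/
def Hyp (A : ℕ → Bool) (k : Bool × ℕ) (B : ℕ → ℕ → Prop) : Prop :=
  ∃ m b, B m b ∧ ∀ x, m ≤ x → x < b → A x = k.1

lemma mono_hyp (A : ℕ → Bool) : Mono (Hyp A) := by
  rintro k B B' h ⟨m, b, h1, h2⟩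
  obtain ⟨b', h3, h4⟩ := h m b h1
  exact ⟨m, b', h4, fun x e1 e2 => h2 x e1 (e2.trans_le h3)⟩

theorem exists_stable (hM : M.S.Countable) : ∃ (G : ℕ → List Bool) (A : ℕ → Bool),
    Inv (Hyp A) (ad M G) ∧ ∀ x, ∃ n, ∀ y, n ≤ y → (G y).getD x false = A x := by
  obtain ⟨k, e, he, he'⟩ := exists_enum (ι := Bool × ℕ) (β := List Bool) hM
  let C := List (List Bool) × List Bool
  let step : ℕ → C → C → Prop := fun t c c' => Ext c.1 c.2 c'.1 ∧ c.2 <+: c'.2 ∧
    t ≤ c'.1.length ∧ t ≤ c'.2.length ∧ ((∃ m, ∀ τ b, Ext c'.1 c'.2 τ → ¬ e t m b τ) ∨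
      ∃ m b, e t m b c'.1 ∧ b ≤ c'.2.length ∧ ∀ x, m ≤ x → x < b → c'.2.getD x false = (k t).1)
  have hstep : ∀ t c, ∃ c', step t c c' := by
    rintro t ⟨σ, g⟩
    obtain ⟨σ1, h1, h2⟩ := exists_ext σ g t
    by_cases H : ∃ τ b, Ext σ1 g τ ∧ e t g.length b τ
    · obtain ⟨τ, b, h3, h4⟩ := H
      let u := max (max t b) g.length
      refine ⟨(τ, pre (fun x => if x < g.length then g.getD x false else (k t).1) u),
        h1.trans h3 (List.prefix_refl _), prefix_pre g false _ (le_max_right _ _),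
        h2.trans h3.1.length_le, by simp only [length_pre]; omega,
        Or.inr ⟨_, b, h4, by simp only [length_pre]; omega, fun x e1 e2 => ?_⟩⟩
      dsimp only
      rw [pre_getD _ (by omega), if_neg (by omega)]
    · simp only [not_exists, not_and] at H
      have h3 := (sExt_pad (le_max_right t g.length) fun _ => False).1
      exact ⟨(σ1, pad g (max t g.length)), h1, h3, h2, by simp [pad],
        Or.inl ⟨g.length, fun τ b h => H τ b ((Ext.refl σ1 g).trans h h3)⟩⟩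
  obtain ⟨s, -, hs⟩ := exists_chain step hstep ([], [])
  obtain ⟨G, hG1, hG2, hG3⟩ := exists_lim [] (fun t => (s t).1) (fun t => (hs t).1.1)
    fun t => (hs t).2.2.1
  obtain ⟨A, hA, -⟩ := exists_lim false (fun t => (s t).2) (fun t => (hs t).2.1)
    fun t => (hs t).2.2.2.1
  have hm : ∀ t t', t ≤ t' → Ext (s t).1 (s t).2 (s t').1 ∧ (s t).2 <+: (s t').2 := by
    intro t t' h
    induction h with
    | refl => exact ⟨Ext.refl _ _, List.prefix_refl _⟩
    | step _ ih => exact ⟨ih.1.trans (hs _).1 ih.2, ih.2.trans (hs _).2.1⟩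
  refine ⟨G, A, inv_ad hM fun i S hS htot => ?_, fun x => ⟨(s (x + 2)).1.length, fun y hy => ?_⟩⟩
  · obtain ⟨t, rfl, rfl⟩ := he' i S hS
    rcases (hs t).2.2.2.2 with ⟨m, h⟩ | ⟨m, b, h1, h2, h3⟩
    · obtain ⟨b, u, hu⟩ := htot m
      exact absurd (hS.2 _ _ _ _ (hG3 u _ (by omega)) hu)
        (h _ b (hm (t + 1) (max (t + 1) (u + 1)) (le_max_left _ _)).1)
    · exact ⟨m, b, ⟨_, (hG2 (t + 1)).symm ▸ h1⟩, fun x e1 e2 =>
        (hA (t + 1) x (e2.trans_le h2)).trans (h3 x e1 e2)⟩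
  · have h1 := (hs (x + 1)).2.2.2.1
    have h2 := (hs (max (x + 1) (y + 1))).2.2.1
    have h3 : y < (s (max (x + 1) (y + 1) + 1)).1.length := by omega
    rw [hG1 _ y h3, hA (x + 2) x h1]
    exact getD_prefix ((hm (x + 2) _ (by omega)).1.2 y hy h3) h1 false

/-- no triple below `z` extends to the pattern according to `c` -/
def Tri (T : ℕ → ℕ → Bool) (τ : List Bool) (k : ℕ) (c : ℕ → Bool) (z : ℕ) : Prop :=
  ∀ x2 < z, ∀ x1 < x2, ∀ x0 < x1, k ≤ x0 → τ.getD x0 false = true → τ.getD x1 false = true →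
    τ.getD x2 false = true → T x0 x1 = false → T x0 x2 = true → T x1 x2 = true →
      c x0 = false → c x1 = true → c x2 = true

/-- quadruples starting in the stem avoid the pattern -/
def Av (T : ℕ → ℕ → Bool) (σ : List Bool) (X : ℕ → Prop) : Prop :=
  ∀ x3 x2 x1 x0, x0 < x1 → x1 < x2 → x2 < x3 → σ.getD x0 false = true → In σ X x1 → In σ X x2 →
    In σ X x3 → T x0 x1 = false → T x0 x2 = true → T x1 x2 = true →
      T x0 x3 = false → T x1 x3 = true → T x2 x3 = true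

variable {T : ℕ → ℕ → Bool} {σ η : List Bool} {X Y : ℕ → Prop}

lemma Av.mono (h : Av T σ X) (e : ∀ y, Y y → X y) : Av T σ Y :=
  fun x3 x2 x1 x0 h1 h2 h3 h4 h5 h6 h7 => h x3 x2 x1 x0 h1 h2 h3 h4 (In.of_ext (SExt.refl _ _) e h5)
    (In.of_ext (SExt.refl _ _) e h6) (In.of_ext (SExt.refl _ _) e h7)

lemma av_iff (τ : List Bool) : (Av T τ fun _ => False) ↔
    ∀ x3 < τ.length, τ.getD x3 false = true → Tri T τ 0 (fun x => T x x3) x3 := by
  constructor
  · exact fun h x3 _ e3 x2 h2 x1 h1 x0 h0 _ e0 e1 e2 =>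
      h x3 x2 x1 x0 h0 h1 h2 e0 (Or.inl e1) (Or.inl e2) (Or.inl e3)
  · intro h x3 x2 x1 x0 h0 h1 h2 e0 e1 e2 e3
    have e4 := e3.resolve_right fun h => h.2
    exact h x3 (lt_of_getD e4) e4 x2 h2 x1 h1 x0 h0 (Nat.zero_le _) e0
      (e1.resolve_right fun h => h.2) (e2.resolve_right fun h => h.2)

lemma av_of (hσ : Av T σ X) (hη : SExt σ η X) (hY : ∀ y, Y y → X y) (h0 : Av T η fun _ => False)
    {c : ℕ → Bool} (hc : ∀ y, Y y → ∀ x < η.length, T x y = c x)
    (ht : Tri T η σ.length c η.length) : Av T η Y := by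
  intro x3 x2 x1 x0 h1 h2 h3 e0 e1 e2 e3
  by_cases hx : x0 < σ.length
  · exact hσ x3 x2 x1 x0 h1 h2 h3 ((getD_of_prefix hη.1 hx).symm.trans e0) (In.of_ext hη hY e1)
      (In.of_ext hη hY e2) (In.of_ext hη hY e3)
  · have l0 := lt_of_getD e0
    rcases e2 with e2 | e2
    · have l2 := lt_of_getD e2
      have e1' := e1.resolve_right fun h => by have := h.1; omega
      rcases e3 with e3 | e3
      · exact h0 x3 x2 x1 x0 h1 h2 h3 e0 (Or.inl e1') (Or.inl e2) (Or.inl e3)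
      · rw [hc x3 e3.2 x0 l0, hc x3 e3.2 x1 (by omega), hc x3 e3.2 x2 l2]
        exact ht x2 l2 x1 h2 x0 h1 (not_lt.1 hx) e0 e1' e2
    · have e3' := e3.resolve_left fun h => by have := lt_of_getD h; have := e2.1; omega
      intro _ a2 _ a4
      rw [hc x2 e2.2 x0 l0, ← hc x3 e3'.2 x0 l0, a4] at a2
      cases a2

lemma dec_tri (hT : InM M fun x : ℕ × ℕ => T x.1 x.2) {τ : α → List Bool} (hτ : InM M τ)
    (k : ℕ) {c : α → ℕ → Bool} (hc : InM M fun x : α × ℕ => c x.1 x.2) {z : α → ℕ}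
    (hz : InM M z) : Dec M fun a => Tri T (τ a) k (c a) (z a) := by
  refine Dec.ball (p := fun a x2 => ∀ x1 < x2, ∀ x0 < x1, k ≤ x0 → (τ a).getD x0 false = true →
    (τ a).getD x1 false = true → (τ a).getD x2 false = true → T x0 x1 = false → T x0 x2 = true →
      T x1 x2 = true → c a x0 = false → c a x1 = true → c a x2 = true) hz ?_
  refine Dec.ball (p := fun (a : α × ℕ) x1 => ∀ x0 < x1, k ≤ x0 → (τ a.1).getD x0 false = true →
    (τ a.1).getD x1 false = true → (τ a.1).getD a.2 false = true → T x0 x1 = false →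
      T x0 a.2 = true → T x1 a.2 = true → c a.1 x0 = false → c a.1 x1 = true → c a.1 a.2 = true)
    (by fun_prop) ?_
  refine Dec.ball (p := fun (a : (α × ℕ) × ℕ) x0 => k ≤ x0 → (τ a.1.1).getD x0 false = true →
    (τ a.1.1).getD a.2 false = true → (τ a.1.1).getD a.1.2 false = true → T x0 a.2 = false →
      T x0 a.1.2 = true → T a.2 a.1.2 = true → c a.1.1 x0 = false → c a.1.1 a.2 = true →
        c a.1.1 a.1.2 = true) (by fun_prop) ?_
  have e1 := hT.comp (g := fun a : ((α × ℕ) × ℕ) × ℕ => (a.2, a.1.2)) (by fun_prop)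
  have e2 := hT.comp (g := fun a : ((α × ℕ) × ℕ) × ℕ => (a.1.2, a.1.1.2)) (by fun_prop)
  have e3 := hT.comp (g := fun a : ((α × ℕ) × ℕ) × ℕ => (a.2, a.1.1.2)) (by fun_prop)
  have e4 := hc.comp (g := fun a : ((α × ℕ) × ℕ) × ℕ => (a.1.1.1, a.2)) (by fun_prop)
  have e5 := hc.comp (g := fun a : ((α × ℕ) × ℕ) × ℕ => (a.1.1.1, a.1.2)) (by fun_prop)
  have e6 := hc.comp (g := fun a : ((α × ℕ) × ℕ) × ℕ => a.1.1) (by fun_prop)
  exact (Dec.le (by fun_prop) (by fun_prop)).imp ((Dec.eq (by fun_prop) (by fun_prop)).imp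
    ((Dec.eq (by fun_prop) (by fun_prop)).imp ((Dec.eq (by fun_prop) (by fun_prop)).imp
      ((Dec.eq e1 (InM.const _)).imp ((Dec.eq e3 (InM.const _)).imp ((Dec.eq e2 (InM.const _)).imp
        ((Dec.eq e4 (InM.const _)).imp ((Dec.eq e5 (InM.const _)).imp
          (Dec.eq e6 (InM.const _))))))))))

/-- the question of the forcing -/
def Qn (T : ℕ → ℕ → Bool) (σ : List Bool) (X : ℕ → Bool) (S : ℕ → ℕ → List Bool → Prop)
    (m : ℕ) (l : List Bool) : Prop :=
  ∃ z : List Bool × ℕ, SExt σ z.1 (fun y => X y = true) ∧ (z.1.length ≤ l.length ∧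
    z.2 ≤ l.length) ∧ (Av T z.1 fun _ => False) ∧
      Tri T z.1 σ.length (fun x => l.getD x false) z.1.length ∧ S m z.2 z.1

lemma ce_qn (hT : InM M fun x : ℕ × ℕ => T x.1 x.2) (σ : List Bool) {X : ℕ → Bool}
    (hX : InM M X) {S : ℕ → ℕ → List Bool → Prop} (hS : Req M S) :
    CE M fun x : ℕ × List Bool => Qn T σ X S x.1 x.2 := by
  refine CE.ex (p := fun (x : ℕ × List Bool) (z : List Bool × ℕ) =>
    SExt σ z.1 (fun y => X y = true) ∧ (z.1.length ≤ x.2.length ∧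
    z.2 ≤ x.2.length) ∧ (Av T z.1 fun _ => False) ∧
      Tri T z.1 σ.length (fun y => x.2.getD y false) z.1.length ∧ S x.1 z.2 z.1) ?_
  refine (ce_sExt (p := fun _ y => X y = true) (by fun_prop) (by fun_prop)
    (CE.eq (by fun_prop) (by fun_prop))).and (((CE.le (by fun_prop) (by fun_prop)).and
      (CE.le (by fun_prop) (by fun_prop))).and (CE.and ?_ (CE.and ?_ (hS.1.comp
        (f := fun x : (ℕ × List Bool) × (List Bool × ℕ) => (x.1.1, x.2.2, x.2.1)) (by fun_prop)))))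
  · refine CE.of_iff ?_ fun x => (av_iff x.2.1).symm
    refine (Dec.ball (p := fun (x : (ℕ × List Bool) × (List Bool × ℕ)) x3 =>
      x.2.1.getD x3 false = true → Tri T x.2.1 0 (fun y => T y x3) x3) (by fun_prop)
      ((Dec.eq (by fun_prop) (by fun_prop)).imp ?_)).1
    exact dec_tri hT (by fun_prop) 0
      (c := fun (x : ((ℕ × List Bool) × (List Bool × ℕ)) × ℕ) y => T y x.2)
      (hT.comp (g := fun x : (((ℕ × List Bool) × (List Bool × ℕ)) × ℕ) × ℕ => (x.2, x.1.2))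
        (by fun_prop)) (by fun_prop)
  · exact (dec_tri hT (by fun_prop) _
      (c := fun (x : (ℕ × List Bool) × (List Bool × ℕ)) y => x.1.2.getD y false)
      (by fun_prop) (by fun_prop)).1

lemma Tri.congr {τ : List Bool} {k z : ℕ} {c c' : ℕ → Bool} (h : Tri T τ k c z)
    (e : ∀ x < z, c x = c' x) : Tri T τ k c' z := by
  intro x2 h2 x1 h1 x0 h0
  rw [← e x0 (by omega), ← e x1 (by omega), ← e x2 h2]
  exact h x2 h2 x1 h1 x0 h0

theorem avoid {A : ℕ → Bool} (hM : Inv (Hyp A) M) (hT : InM M fun x : ℕ × ℕ => T x.1 x.2) :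
    ∃ G : ℕ → Bool, Inv (Hyp A) (ad M G) ∧ Inf G ∧ ∀ x0 x1 x2 x3, x0 < x1 → x1 < x2 → x2 < x3 →
      G x0 = true → G x1 = true → G x2 = true → G x3 = true → T x0 x1 = false → T x0 x2 = true →
        T x1 x2 = true → T x0 x3 = false → T x1 x3 = true → T x2 x3 = true := by
  obtain ⟨G, h1, h2, h3⟩ := mathias (mono_hyp A) hM (Av T) (fun _ _ h => h.mono fun _ => False.elim)
    (fun _ _ _ _ _ _ _ h => by simp at h)
    (fun N hN X hXM hX σ hσ t => by
      obtain ⟨y0, h1, h2⟩ := hX (max t σ.length)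
      obtain ⟨ty, Y, h3, h4, h5⟩ := exists_type (hT.mono hN) hX hXM (y0 + 1)
      let η := pre (fun x => if x < σ.length then σ.getD x false else decide (x = y0)) (y0 + 1)
      have h6 : SExt σ η fun y => y = y0 := by
        refine ⟨prefix_pre σ false _ (by omega), fun x hx hx' => ?_⟩
        have := lt_of_getD hx'
        rw [length_pre] at this
        rw [pre_getD _ this, if_neg (not_lt.2 hx)] at hx'
        simpa using hx'
      have h7 := h6.mono (Y := fun y => X y = true) fun y h => h ▸ h2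
      refine ⟨η, Y, h3, h4, av_of hσ h7 (fun y h => (h5 y h).1) ?_ (c := ty)
        (fun y hy x hx => (h5 y hy).2 x (by simpa [η] using hx)) ?_, h7,
        fun y h => (h5 y h).1, y0, by omega, ?_⟩
      · intro x3 x2 x1 x0 e1 e2 e3 e4 e5 e6 e7
        by_cases hx : x0 < σ.length
        · exact hσ x3 x2 x1 x0 e1 e2 e3 ((getD_of_prefix h7.1 hx).symm.trans e4)
            (In.of_ext h7 (fun _ => False.elim) e5) (In.of_ext h7 (fun _ => False.elim) e6)
            (In.of_ext h7 (fun _ => False.elim) e7)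
        · have := h6.2 x0 (not_lt.1 hx) e4
          have := h6.2 x1 (by omega) (e5.resolve_right fun h => h.2)
          omega
      · intro x2 _ x1 _ x0 e1 e2 e3 e4
        have := h6.2 x0 e2 e3
        have := h6.2 x1 (by omega) e4
        omega
      · rw [pre_getD _ (Nat.lt_succ_self _), if_neg (by omega)]
        simp)
    (fun N hN hI X hXM hX σ hσ S hS k => by
      have hq := ce_qn (hT.mono hN) σ hXM hS
      by_cases H : ∀ m, ∃ b, ∀ c : ℕ → Bool, (∀ x, c x ∈ [false, true]) →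
          ∃ u, u ≤ b ∧ Qn T σ X S m (pre c u)
      · have hO : Sig N fun (x : ℕ × ℕ) (c : ℕ → Bool) => ∃ u, u ≤ x.2 ∧ Qn T σ X S x.1 (pre c u) :=
          Sig.mk' (fun x l => l.length ≤ x.2 ∧ Qn T σ X S x.1 l)
            ((CE.le (by fun_prop) (by fun_prop)).and (hq.comp
              (f := fun x : (ℕ × ℕ) × List Bool => (x.1.1, x.2)) (by fun_prop)))
            fun _ _ => by simp only [length_pre]
        obtain ⟨m, b, h1, h2⟩ := hI.good k _
          (hO.ce_forall (L := fun _ => [false, true]) (by fun_prop)) H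
        obtain ⟨ty, Y, h3, h4, h5⟩ := exists_type (hT.mono hN) hX hXM b
        obtain ⟨u, h6, ⟨τ, b'⟩, e1, ⟨e2, e3⟩, e4, e5, e6⟩ := h1 ty fun x => by cases ty x <;> simp
        simp only [length_pre] at e2 e3
        exact ⟨τ, Y, N, Le.refl N, hI, h3, h4, av_of hσ e1 (fun y h => (h5 y h).1) e4 (c := ty)
          (fun y hy x hx => (h5 y hy).2 x (by omega))
          (e5.congr fun x hx => pre_getD _ (hx.trans_le e2) _), e1, fun y h => (h5 y h).1,
          Or.inl ⟨m, b', e6, fun x a1 a2 => h2 x a1 (by omega)⟩⟩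
      · simp only [not_forall, not_exists] at H
        obtain ⟨m, hm⟩ := H
        have hO : Sig N fun (_ : Unit) (c : ℕ → Bool) => ∃ u, Qn T σ X S m (pre c u) :=
          Sig.mk' (fun _ l => Qn T σ X S m l) (hq.comp
            (f := fun x : Unit × List Bool => (m, x.2)) (by fun_prop)) fun _ _ => Iff.rfl
        obtain ⟨c, h1, h2, h3⟩ := wkl (mono_hyp A) hI [false, true] hO (by
          by_contra hc
          obtain ⟨b, hb⟩ := compact_bound [false, true]
            (fun b c => ∃ u, u ≤ b ∧ Qn T σ X S m (pre c u))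
            (fun u v h huv ⟨w, e1, e2⟩ => ⟨w, e1.trans huv, e2⟩)
            (fun u h h' e ⟨w, e1, e2⟩ =>
              ⟨w, e1, pre_congr (fun x hx => e x (hx.trans_le e1)) ▸ e2⟩)
            (fun c hc' => by
              obtain ⟨u, hu⟩ := not_not.1 fun h => hc ⟨c, hc', h⟩
              exact ⟨u, u, le_rfl, hu⟩)
          obtain ⟨c, e1, e2⟩ := hm b
          obtain ⟨u, e3⟩ := hb c e1
          exact e2 u e3)
        obtain ⟨w, Y, h4, h5, h6⟩ := exists_part _ hX (hXM.mono (le_ad N c)) (inM_ad N c) h1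
        refine ⟨σ, Y, ad N c, le_ad N c, h3, h4, h5, hσ.mono fun y h => (h6 y h).1, SExt.refl _ _,
          fun y h => (h6 y h).1, Or.inr ⟨m, fun τ b e1 e2 e3 => h2 ⟨max τ.length b, (τ, b),
            e1.mono fun y h => (h6 y h).1, by simp, e2, ?_, e3⟩⟩⟩
        intro x2 a2 x1 a1 x0 a0 a3 a4 a5 _ _ _ _ a6 a7
        dsimp only at a2 a4 a5 a6 a7
        rw [pre_getD _ (by omega), (h6 _ (e1.2 _ (by omega) ‹_›)).2] at a6 a7
        rw [a6] at a7
        cases a7)
  refine ⟨G, h1, h2, fun x0 x1 x2 x3 e1 e2 e3 a0 a1 a2 a3 => ?_⟩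
  obtain ⟨τ, h4, h5⟩ := h3 x3
  exact h4 x3 x2 x1 x0 e1 e2 e3 (h5 x0 (by omega) a0) (Or.inl (h5 x1 (by omega) a1))
    (Or.inl (h5 x2 e3.le a2)) (Or.inl (h5 x3 le_rfl a3))

/-- infinite sets avoiding the pattern exist -/
def HasAv (T : ℕ × ℕ → Bool) (N : SA) : Prop :=
  ∃ G : ℕ → Bool, InM N G ∧ Inf G ∧ ∀ x0 x1 x2 x3, x0 < x1 → x1 < x2 → x2 < x3 →
    G x0 = true → G x1 = true → G x2 = true → G x3 = true → T (x0, x1) = false →
      T (x0, x2) = true → T (x1, x2) = true → T (x0, x3) = false → T (x1, x3) = true →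
        T (x2, x3) = true

theorem exists_model_av : ∃ (N : SA) (f : ℕ × ℕ → Bool), InM N f ∧ (∀ T, InM N T → HasAv T N) ∧
    ∀ H : ℕ → Bool, InM N H → Inf H → ∀ c, ∃ x y, x < y ∧ H x = true ∧ H y = true ∧
      f (x, y) = c := by
  obtain ⟨G, A, hG, hA⟩ := exists_stable countable_base
  obtain ⟨N, h1, h2, h3⟩ := exists_closure (P := HasAv)
    (fun T N N' h ⟨G, h1, h2⟩ => ⟨G, h1.mono h, h2⟩)
    (fun T N hN hT => by
      obtain ⟨G, h1, h2⟩ := avoid (T := fun x y => T (x, y)) hN hT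
      exact ⟨ad N G, le_ad N G, h1, G, inM_ad N G, h2⟩) hG
  have hGN : InM N G := (inM_ad base G).mono h1
  refine ⟨N, fun x => (G x.2).getD x.1 false, by fun_prop, h3, fun H hH hH' c => ?_⟩
  obtain ⟨m, b, ⟨x, e1, e2, e3⟩, e4⟩ := h2.good (c, 0)
    (fun m b => ∃ x, m ≤ x ∧ x < b ∧ H x = true)
    (CE.exNat (p := fun (y : ℕ × ℕ) x => y.1 ≤ x ∧ x < y.2 ∧ H x = true)
      ((CE.le (by fun_prop) (by fun_prop)).and ((CE.lt (by fun_prop) (by fun_prop)).and
        (CE.eq (by fun_prop) (by fun_prop)))))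
    (fun m => by
      obtain ⟨y, e1, e2⟩ := hH' m
      exact ⟨y + 1, y, e1, Nat.lt_succ_self y, e2⟩)
  obtain ⟨n, hn⟩ := hA x
  obtain ⟨y, e5, e6⟩ := hH' (max n (x + 1))
  exact ⟨x, y, by omega, e3, e6, (hn y (by omega)).trans (e4 x e1 e2)⟩

/-- graphs of partial functions recursive in members of a class are enumerable in the class -/
theorem ce_of_recursiveIn {O : Set (ℕ →. ℕ)} (hO : ∀ g ∈ O, CE M fun x : ℕ × ℕ => x.2 ∈ g x.1)
    {f : ℕ →. ℕ} (hf : Nat.RecursiveIn O f) : CE M fun x : ℕ × ℕ => x.2 ∈ f x.1 := by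
  induction hf with
  | zero => exact (CE.eq (f := fun x : ℕ × ℕ => x.2) (g := fun _ => 0) (by fun_prop)
      (by fun_prop)).of_iff fun x => Part.mem_some_iff.symm
  | succ => exact (CE.eq (f := fun x : ℕ × ℕ => x.2) (g := fun x => x.1 + 1) (by fun_prop)
      (by fun_prop)).of_iff fun x => Part.mem_some_iff.symm
  | left => exact (CE.eq (f := fun x : ℕ × ℕ => x.2) (g := fun x => x.1.unpair.1) (by fun_prop)
      (by fun_prop)).of_iff fun x => Part.mem_some_iff.symm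
  | right => exact (CE.eq (f := fun x : ℕ × ℕ => x.2) (g := fun x => x.1.unpair.2) (by fun_prop)
      (by fun_prop)).of_iff fun x => Part.mem_some_iff.symm
  | oracle g hg => exact hO g hg
  | @pair f h _ _ ih ih' =>
    refine ((ih.comp (f := fun x : ℕ × ℕ => (x.1, x.2.unpair.1)) (by fun_prop)).and
      (ih'.comp (f := fun x : ℕ × ℕ => (x.1, x.2.unpair.2)) (by fun_prop))).of_iff fun x => ?_
    simp only [Seq.seq, Part.map_eq_map, Part.mem_bind_iff, Part.mem_map_iff]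
    constructor
    · rintro ⟨h1, h2⟩
      exact ⟨_, ⟨_, h1, rfl⟩, _, h2, Nat.pair_unpair _⟩
    · rintro ⟨_, ⟨a, h1, rfl⟩, b, h2, e⟩
      rw [← e, Nat.unpair_pair]
      exact ⟨h1, h2⟩
  | @comp f h _ _ ih ih' =>
    refine (CE.exNat (p := fun (x : ℕ × ℕ) y => y ∈ h x.1 ∧ x.2 ∈ f y)
      ((ih'.comp (f := fun x : (ℕ × ℕ) × ℕ => (x.1.1, x.2)) (by fun_prop)).and
      (ih.comp (f := fun x : (ℕ × ℕ) × ℕ => (x.2, x.1.2)) (by fun_prop)))).of_iff fun x => ?_
    exact Part.mem_bind_iff.symm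
  | @prec f h _ _ ih ih' =>
    have h1 : CE M fun x : ℕ × ℕ => ∃ l : List ℕ, l.getD 0 0 ∈ f x.1.unpair.1 ∧
        l.getD x.1.unpair.2 0 = x.2 ∧ ∀ i < x.1.unpair.2,
          l.getD (i + 1) 0 ∈ h (Nat.pair x.1.unpair.1 (Nat.pair i (l.getD i 0))) :=
      CE.ex (p := fun (x : ℕ × ℕ) (l : List ℕ) => l.getD 0 0 ∈ f x.1.unpair.1 ∧
        l.getD x.1.unpair.2 0 = x.2 ∧ ∀ i < x.1.unpair.2,
          l.getD (i + 1) 0 ∈ h (Nat.pair x.1.unpair.1 (Nat.pair i (l.getD i 0))))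
        ((ih.comp (f := fun x : (ℕ × ℕ) × List ℕ => (x.1.1.unpair.1, x.2.getD 0 0))
          (by fun_prop)).and ((CE.eq (by fun_prop) (by fun_prop)).and
          (CE.ball (p := fun (x : (ℕ × ℕ) × List ℕ) i =>
            x.2.getD (i + 1) 0 ∈ h (Nat.pair x.1.1.unpair.1 (Nat.pair i (x.2.getD i 0))))
            (by fun_prop) (ih'.comp (f := fun x : ((ℕ × ℕ) × List ℕ) × ℕ =>
              (Nat.pair x.1.1.1.unpair.1 (Nat.pair x.2 (x.1.2.getD x.2 0)),
                x.1.2.getD (x.2 + 1) 0)) (by fun_prop)))))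
    refine h1.of_iff fun x => ?_
    obtain ⟨p, v⟩ := x
    dsimp only
    generalize p.unpair.1 = a
    generalize p.unpair.2 = n
    constructor
    · rintro ⟨l, e1, rfl, e3⟩
      induction n with
      | zero => exact e1
      | succ n ih2 =>
        exact Part.mem_bind (ih2 fun i hi => e3 i (by omega)) (e3 n (by omega))
    · intro hv
      have key : ∃ g : ℕ → ℕ, g 0 ∈ f a ∧ g n = v ∧
          ∀ i < n, g (i + 1) ∈ h (Nat.pair a (Nat.pair i (g i))) := by
        induction n generalizing v with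
        | zero => exact ⟨fun _ => v, hv, rfl, fun _ h => by omega⟩
        | succ n ih2 =>
          obtain ⟨u, e1, e2⟩ := Part.mem_bind_iff.1 hv
          obtain ⟨g, e3, e4, e5⟩ := ih2 u e1
          refine ⟨Function.update g (n + 1) v, by rwa [Function.update_of_ne (by omega)],
            Function.update_self _ _ _, fun i hi => ?_⟩
          rw [Function.update_of_ne (show i ≠ n + 1 by omega)]
          rcases Nat.lt_succ_iff_lt_or_eq.1 hi with h' | rfl
          · rw [Function.update_of_ne (by omega)]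
            exact e5 i h'
          · rw [Function.update_self, e4]
            exact e2
      obtain ⟨g, e1, e2, e3⟩ := key
      refine ⟨pre g (n + 1), by rwa [pre_getD _ (by omega)], by rwa [pre_getD _ (by omega)],
        fun i hi => ?_⟩
      rw [pre_getD _ (by omega), pre_getD _ (by omega)]
      exact e3 i hi
  | @rfind f _ ih =>
    have h1 : CE M fun x : ℕ × ℕ => 0 ∈ f (Nat.pair x.1 x.2) ∧
        ∀ i < x.2, ∃ v, v + 1 ∈ f (Nat.pair x.1 i) :=
      (ih.comp (f := fun x : ℕ × ℕ => (Nat.pair x.1 x.2, 0)) (by fun_prop)).and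
        (CE.ball (p := fun (x : ℕ × ℕ) i => ∃ v, v + 1 ∈ f (Nat.pair x.1 i)) (by fun_prop)
          (CE.exNat (p := fun (x : (ℕ × ℕ) × ℕ) v => v + 1 ∈ f (Nat.pair x.1.1 x.2))
            (ih.comp (f := fun x : ((ℕ × ℕ) × ℕ) × ℕ => (Nat.pair x.1.1.1 x.1.2, x.2 + 1))
              (by fun_prop))))
    refine h1.of_iff fun x => ?_
    refine Iff.trans ?_ Nat.mem_rfind.symm
    simp only [Part.map_eq_map, Part.mem_map_iff, decide_eq_true_eq, decide_eq_false_iff_not,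
      exists_eq_right]
    refine and_congr_right fun _ => ⟨fun h i hi => ?_, fun h i hi => ?_⟩
    · obtain ⟨v, hv⟩ := h i hi
      exact ⟨_, hv, Nat.succ_ne_zero v⟩
    · obtain ⟨v, hv, e⟩ := h hi
      obtain ⟨w, rfl⟩ := Nat.exists_eq_succ_of_ne_zero e
      exact ⟨w, hv⟩

end Pool.Agent.H362Z.EM
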